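import Pool.Agent.Work.MP_c2bb60_gt.Neg.Defs
set_option autoImplicit false
open Set Filter Topology
namespace Pool.Agent.C2bb60Neg

/-! ## Module H : greedy construction of the thread structure -/

theorem h_NN_pos : 0 < NN := by unfold NN; norm_num

theorem h_lev_mono {y z : ℕ} (h : y ≤ z) : lev y ≤ lev z := by
  unfold lev
  exact Nat.log_mono_right (Nat.succ_le_succ (Nat.div_le_div_right h))

theorem h_lev_eq (z k : ℕ) : lev z = k ↔ NN * (2 ^ k - 1) ≤ z ∧ z < NN * (2 ^ (k + 1) - 1) := by
  unfold lev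
  have h1 : 1 ≤ 2 ^ k := Nat.one_le_two_pow
  have h2 : 1 ≤ 2 ^ (k + 1) := Nat.one_le_two_pow
  rw [Nat.log_eq_iff (Or.inr ⟨by norm_num, Nat.succ_ne_zero _⟩)]
  rw [mul_comm NN, mul_comm NN, ← Nat.le_div_iff_mul_le h_NN_pos, ← Nat.div_lt_iff_lt_mul h_NN_pos]
  constructor
  · rintro ⟨ha, hb⟩; constructor <;> omega
  · rintro ⟨ha, hb⟩; constructor <;> omega

theorem h_lev_pos {z : ℕ} (h : NN ≤ z) : 1 ≤ lev z := by
  have h1 : lev NN = 1 := by
    rw [h_lev_eq]
    norm_num
    unfold NN; norm_num
  rw [← h1]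
  exact h_lev_mono h

theorem h_lev_lt {z : ℕ} (h : z < NN) : lev z = 0 := by
  rw [h_lev_eq]
  simp
  exact h

/-- parent relation at stage `z` -/
def hch (F : ℕ → ℕ × ℕ) (z u : ℕ) : ℕ :=
  ((Finset.range z).filter (fun w => NN ≤ w ∧ (F w).1 = u)).card +
  ((Finset.range z).filter (fun w => NN ≤ w ∧ (F w).2 = u)).card

def hnb (F : ℕ → ℕ × ℕ) (z x : ℕ) : Finset ℕ :=
  {(F x).1, (F x).2} ∪ ((Finset.range z).filter (fun w => NN ≤ w ∧ (F w).1 = x) ∪
    (Finset.range z).filter (fun w => NN ≤ w ∧ (F w).2 = x))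

def hball (F : ℕ → ℕ × ℕ) (z u : ℕ) : ℕ → Finset ℕ
  | 0 => {u}
  | r + 1 => hball F z u r ∪ (hball F z u r).biUnion (hnb F z)

/-- The far condition at `w`. -/
def hfar (F : ℕ → ℕ × ℕ) (w : ℕ) : Prop :=
  ∃ h : ℕ → ℤ, (∀ y, NN ≤ y → y < w → |h (F y).1 - h y| ≤ 1 ∧ |h (F y).2 - h y| ≤ 1) ∧
    h (F w).1 = 0 ∧ h (F w).2 = 2 * (q (lev (F w).1) : ℤ)

structure HInv (F : ℕ → ℕ × ℕ) (z : ℕ) : Prop where
  lev1 : ∀ w, w < z → NN ≤ w → lev (F w).1 + 1 = lev w
  lev2 : ∀ w, w < z → NN ≤ w → lev (F w).2 + 1 = lev w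
  far : ∀ w, w < z → NN ≤ w → hfar F w
  ch : ∀ u, hch F z u ≤ 5

theorem hnb_card (F : ℕ → ℕ × ℕ) (z x : ℕ) (h : hch F z x ≤ 5) : (hnb F z x).card ≤ 7 := by
  unfold hnb
  refine (Finset.card_union_le _ _).trans ?_
  have h1 : ({(F x).1, (F x).2} : Finset ℕ).card ≤ 2 := Finset.card_le_two
  have h2 := Finset.card_union_le ((Finset.range z).filter (fun w => NN ≤ w ∧ (F w).1 = x))
    ((Finset.range z).filter (fun w => NN ≤ w ∧ (F w).2 = x))
  unfold hch at h
  omega

theorem hball_card (F : ℕ → ℕ × ℕ) (z u : ℕ) (h : ∀ x, hch F z x ≤ 5) (r : ℕ) :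
    (hball F z u r).card ≤ 8 ^ r := by
  induction r with
  | zero => simp [hball]
  | succ r ih =>
    unfold hball
    refine (Finset.card_union_le _ _).trans ?_
    have h1 : ((hball F z u r).biUnion (hnb F z)).card ≤ (hball F z u r).card * 7 :=
      Finset.card_biUnion_le_card_mul _ _ _ (fun x _ => hnb_card F z x (h x))
    rw [pow_succ]
    omega

theorem hball_mono (F : ℕ → ℕ × ℕ) (z u : ℕ) {r s : ℕ} (h : r ≤ s) :
    hball F z u r ⊆ hball F z u s := by
  induction s, h using Nat.le_induction with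
  | base => exact Finset.Subset.refl _
  | succ s hs ih =>
    refine ih.trans ?_
    conv_rhs => unfold hball
    exact Finset.subset_union_left

theorem hball_step (F : ℕ → ℕ × ℕ) (z u : ℕ) {r x y : ℕ} (hx : x ∈ hball F z u r)
    (hy : y ∈ hnb F z x) : y ∈ hball F z u (r + 1) := by
  unfold hball
  exact Finset.mem_union_right _ (Finset.mem_biUnion.2 ⟨x, hx, hy⟩)

/-- The truncated hop distance. -/
def hdist (F : ℕ → ℕ × ℕ) (z u R x : ℕ) : ℕ :=
  ((Finset.range R).filter (fun r => x ∉ hball F z u r)).card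

theorem hdist_le (F : ℕ → ℕ × ℕ) (z u R x y : ℕ) (hy : y ∈ hnb F z x) :
    hdist F z u R y ≤ hdist F z u R x + 1 := by
  classical
  unfold hdist
  have hsub : (Finset.range R).filter (fun r => y ∉ hball F z u r) ⊆
      insert 0 (((Finset.range R).filter (fun r => x ∉ hball F z u r)).image (· + 1)) := by
    intro r hr
    rw [Finset.mem_filter, Finset.mem_range] at hr
    rcases r with _ | r
    · exact Finset.mem_insert_self _ _
    · apply Finset.mem_insert_of_mem
      rw [Finset.mem_image]
      refine ⟨r, ?_, rfl⟩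
      rw [Finset.mem_filter, Finset.mem_range]
      exact ⟨by omega, fun hx => hr.2 (hball_step F z u hx hy)⟩
  refine (Finset.card_le_card hsub).trans ((Finset.card_insert_le _ _).trans ?_)
  exact Nat.succ_le_succ Finset.card_image_le

theorem hdist_abs (F : ℕ → ℕ × ℕ) (z u R x y : ℕ) (hy : y ∈ hnb F z x) (hx : x ∈ hnb F z y) :
    |(hdist F z u R x : ℤ) - (hdist F z u R y : ℤ)| ≤ 1 := by
  have h1 := hdist_le F z u R x y hy
  have h2 := hdist_le F z u R y x hx
  rw [abs_le]
  constructor <;> omega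

theorem hdist_self (F : ℕ → ℕ × ℕ) (z u R : ℕ) : hdist F z u R u = 0 := by
  unfold hdist
  rw [Finset.card_eq_zero, Finset.filter_eq_empty_iff]
  intro r _ hr
  exact hr (hball_mono F z u (Nat.zero_le r) (by simp [hball]))

theorem hdist_far (F : ℕ → ℕ × ℕ) (z u R x : ℕ) (h : x ∉ hball F z u R) :
    hdist F z u R x = R := by
  unfold hdist
  rw [Finset.filter_true_of_mem, Finset.card_range]
  intro r hr hx
  exact h (hball_mono F z u (Finset.mem_range.1 hr).le hx)

theorem h_pow_bound (k : ℕ) : 8 ^ (2 * q k) ≤ 64 ^ 3 * 2 ^ k := by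
  unfold q
  have h1 : 8 ^ (2 * (k / 6 + 3)) = 64 ^ 3 * 2 ^ (6 * (k / 6)) := by
    rw [mul_add, pow_add, pow_mul, pow_mul 2 6]
    norm_num [mul_comm]
  rw [h1]
  have h2 : 6 * (k / 6) ≤ k := Nat.mul_div_le k 6
  exact Nat.mul_le_mul_left _ (Nat.pow_le_pow_right (by norm_num) h2)

theorem h_pick (F : ℕ → ℕ × ℕ) (z : ℕ) (hz : NN ≤ z) (h : HInv F z) :
    ∃ p r : ℕ, lev p + 1 = lev z ∧ lev r + 1 = lev z ∧ hch F z p ≤ 4 ∧ hch F z r ≤ 4 ∧
      r ∉ hball F z p (2 * q (lev p)) := by
  classical
  obtain ⟨k, hk⟩ : ∃ k, lev z = k + 1 := ⟨lev z - 1, by have := h_lev_pos hz; omega⟩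
  set V : Finset ℕ := Finset.Ico (NN * (2 ^ k - 1)) (NN * (2 ^ (k + 1) - 1)) with hV
  have hVmem : ∀ x, x ∈ V ↔ lev x = k := by
    intro x
    rw [hV, Finset.mem_Ico, h_lev_eq]
  have e1 : 1 ≤ 2 ^ k := Nat.one_le_two_pow
  have hVcard : V.card = NN * 2 ^ k := by
    rw [hV, Nat.card_Ico, ← Nat.mul_sub]
    congr 1
    rw [pow_succ]
    omega
  -- the number of earlier vertices of level `k+1`
  have hzk := (h_lev_eq z (k + 1)).1 hk
  have hcount : ∀ f : ℕ → ℕ, (∀ w, w < z → NN ≤ w → lev (f w) + 1 = lev w) →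
      ∑ u ∈ V, ((Finset.range z).filter (fun w => NN ≤ w ∧ f w = u)).card + 1
        ≤ NN * 2 ^ (k + 1) := by
    intro f hf
    have h1 : ∑ u ∈ V, ((Finset.range z).filter (fun w => NN ≤ w ∧ f w = u)).card =
        (V.biUnion (fun u => (Finset.range z).filter (fun w => NN ≤ w ∧ f w = u))).card := by
      rw [Finset.card_biUnion]
      intro a _ b _ hab
      show Disjoint _ _
      rw [Finset.disjoint_left]
      intro w hwa hwb
      rw [Finset.mem_filter] at hwa hwb
      exact hab (hwa.2.2.symm.trans hwb.2.2)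
    rw [h1]
    have h2 : V.biUnion (fun u => (Finset.range z).filter (fun w => NN ≤ w ∧ f w = u)) ⊆
        Finset.Ico (NN * (2 ^ (k + 1) - 1)) z := by
      intro w hw
      rw [Finset.mem_biUnion] at hw
      obtain ⟨u, hu, hw⟩ := hw
      rw [Finset.mem_filter, Finset.mem_range] at hw
      rw [hVmem] at hu
      have h3 := hf w hw.1 hw.2.1
      rw [hw.2.2, hu] at h3
      rw [Finset.mem_Ico]
      exact ⟨((h_lev_eq w (k + 1)).1 h3.symm).1, hw.1⟩
    have h4 := Finset.card_le_card h2
    rw [Nat.card_Ico] at h4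
    have e2 : NN * (2 ^ (k + 1 + 1) - 1) = NN * (2 ^ (k + 1) - 1) + NN * 2 ^ (k + 1) := by
      rw [← mul_add]
      congr 1
      rw [pow_succ 2 (k + 1)]
      have : 1 ≤ 2 ^ (k + 1) := Nat.one_le_two_pow
      omega
    have e3 := hzk.2
    rw [e2] at e3
    have e4 := hzk.1
    omega
  have hsum : ∑ u ∈ V, hch F z u + 2 ≤ 4 * V.card := by
    have h1 := hcount (fun w => (F w).1) h.lev1
    have h2 := hcount (fun w => (F w).2) h.lev2
    unfold hch
    rw [Finset.sum_add_distrib, hVcard]
    rw [pow_succ, ← mul_assoc] at h1 h2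
    omega
  set D : Finset ℕ := V.filter (fun u => hch F z u ≤ 4) with hD
  have hDV : D.card + (V.filter (fun u => ¬ hch F z u ≤ 4)).card = V.card :=
    Finset.card_filter_add_card_filter_not _
  have hsat : 5 * (V.filter (fun u => ¬ hch F z u ≤ 4)).card ≤ ∑ u ∈ V, hch F z u := by
    calc 5 * (V.filter (fun u => ¬ hch F z u ≤ 4)).card
        = ∑ u ∈ V.filter (fun u => ¬ hch F z u ≤ 4), 5 := by
          rw [Finset.sum_const, smul_eq_mul, mul_comm]
      _ ≤ ∑ u ∈ V.filter (fun u => ¬ hch F z u ≤ 4), hch F z u := by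
          apply Finset.sum_le_sum
          intro u hu
          rw [Finset.mem_filter] at hu
          omega
      _ ≤ ∑ u ∈ V, hch F z u :=
          Finset.sum_le_sum_of_subset (Finset.filter_subset _ _)
  have hDcard : 64 ^ 3 * 2 ^ k < D.card := by
    have : V.card = 5 * (64 ^ 3 * 2 ^ k) := by
      rw [hVcard]; unfold NN; ring
    omega
  have hDne : D.Nonempty := by
    rw [← Finset.card_pos]; omega
  obtain ⟨p, hp⟩ := hDne
  have hp' : lev p = k ∧ hch F z p ≤ 4 := by
    rw [hD, Finset.mem_filter, hVmem] at hp; exact hp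
  have hex : ∃ r ∈ D, r ∉ hball F z p (2 * q (lev p)) := by
    by_contra hcon
    push Not at hcon
    have h1 : D ⊆ hball F z p (2 * q (lev p)) := fun r hr => hcon r hr
    have h2 := Finset.card_le_card h1
    have h3 := hball_card F z p h.ch (2 * q (lev p))
    have h4 := h_pow_bound (lev p)
    rw [hp'.1] at h2 h3 h4
    omega
  obtain ⟨r, hr, hrb⟩ := hex
  have hr' : lev r = k ∧ hch F z r ≤ 4 := by
    rw [hD, Finset.mem_filter, hVmem] at hr; exact hr
  exact ⟨p, r, by omega, by omega, hp'.2, hr'.2, hrb⟩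

theorem h_filter_succ (z : ℕ) (f : ℕ → ℕ) (u p : ℕ) :
    ((Finset.range (z + 1)).filter (fun w => NN ≤ w ∧ Function.update f z p w = u)).card ≤
      ((Finset.range z).filter (fun w => NN ≤ w ∧ f w = u)).card + (if p = u then 1 else 0) := by
  classical
  have hsub : (Finset.range (z + 1)).filter (fun w => NN ≤ w ∧ Function.update f z p w = u) ⊆
      (Finset.range z).filter (fun w => NN ≤ w ∧ f w = u) ∪ (if p = u then {z} else ∅) := by
    intro w hw
    rw [Finset.mem_filter, Finset.mem_range] at hw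
    rcases Nat.lt_succ_iff_lt_or_eq.1 hw.1 with h1 | h1
    · apply Finset.mem_union_left
      rw [Finset.mem_filter, Finset.mem_range]
      rw [Function.update_of_ne (by omega)] at hw
      exact ⟨h1, hw.2⟩
    · subst h1
      rw [Function.update_self] at hw
      apply Finset.mem_union_right
      rw [if_pos hw.2.2]
      exact Finset.mem_singleton_self _
  refine (Finset.card_le_card hsub).trans ((Finset.card_union_le _ _).trans ?_)
  apply Nat.add_le_add_left
  split_ifs <;> simp

theorem h_step (z : ℕ) (F : ℕ → ℕ × ℕ) (h : HInv F z) :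
    ∃ p : ℕ × ℕ, HInv (Function.update F z p) (z + 1) := by
  classical
  rcases lt_or_ge z NN with hz | hz
  · refine ⟨(0, 0), ⟨?_, ?_, ?_, ?_⟩⟩
    · intro w hw hw2; omega
    · intro w hw hw2; omega
    · intro w hw hw2; omega
    · intro u
      unfold hch
      rw [Finset.filter_false_of_mem, Finset.filter_false_of_mem]
      · simp
      · intro w hw h2; rw [Finset.mem_range] at hw; omega
      · intro w hw h2; rw [Finset.mem_range] at hw; omega
  · obtain ⟨p, r, hp, hr, hcp, hcr, hbl⟩ := h_pick F z hz h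
    have hpr : p ≠ r := by
      rintro rfl
      exact hbl (hball_mono F z p (Nat.zero_le _) (by simp [hball]))
    refine ⟨(p, r), ⟨?_, ?_, ?_, ?_⟩⟩
    · intro w hw hw2
      rcases Nat.lt_succ_iff_lt_or_eq.1 hw with h1 | h1
      · rw [Function.update_of_ne (by omega)]; exact h.lev1 w h1 hw2
      · subst h1; rw [Function.update_self]; exact hp
    · intro w hw hw2
      rcases Nat.lt_succ_iff_lt_or_eq.1 hw with h1 | h1
      · rw [Function.update_of_ne (by omega)]; exact h.lev2 w h1 hw2
      · subst h1; rw [Function.update_self]; exact hr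
    · intro w hw hw2
      rcases Nat.lt_succ_iff_lt_or_eq.1 hw with h1 | h1
      · obtain ⟨g, hg1, hg2, hg3⟩ := h.far w h1 hw2
        refine ⟨g, ?_, ?_, ?_⟩
        · intro y hy1 hy2
          rw [Function.update_of_ne (by omega)]
          exact hg1 y hy1 hy2
        · rw [Function.update_of_ne (by omega)]; exact hg2
        · rw [Function.update_of_ne (by omega)]; exact hg3
      · subst h1
        refine ⟨fun x => (hdist F w p (2 * q (lev p)) x : ℤ), ?_, ?_, ?_⟩
        · intro y hy1 hy2
          rw [Function.update_of_ne (by omega)]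
          constructor
          · apply hdist_abs
            · unfold hnb
              simp only [Finset.mem_union, Finset.mem_filter, Finset.mem_range]
              right; left; exact ⟨hy2, hy1, trivial⟩
            · unfold hnb
              simp
          · apply hdist_abs
            · unfold hnb
              simp only [Finset.mem_union, Finset.mem_filter, Finset.mem_range]
              right; right; exact ⟨hy2, hy1, trivial⟩
            · unfold hnb
              simp
        · rw [Function.update_self]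
          show ((hdist F w p (2 * q (lev p)) p : ℕ) : ℤ) = 0
          rw [hdist_self]; rfl
        · rw [Function.update_self]
          show ((hdist F w p (2 * q (lev p)) r : ℕ) : ℤ) = 2 * (q (lev p) : ℤ)
          rw [hdist_far _ _ _ _ _ hbl]
          push_cast; ring
    · intro u
      have h1 := h_filter_succ z (fun w => (F w).1) u p
      have h2 := h_filter_succ z (fun w => (F w).2) u r
      have e1 : ∀ w, (Function.update F z (p, r) w).1 =
          Function.update (fun w => (F w).1) z p w := by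
        intro w
        by_cases hw : w = z
        · subst hw; simp
        · rw [Function.update_of_ne hw, Function.update_of_ne hw]
      have e2 : ∀ w, (Function.update F z (p, r) w).2 =
          Function.update (fun w => (F w).2) z r w := by
        intro w
        by_cases hw : w = z
        · subst hw; simp
        · rw [Function.update_of_ne hw, Function.update_of_ne hw]
      unfold hch
      simp only [e1, e2]
      have h3 := h.ch u
      unfold hch at h3 hcp hcr
      by_cases hup : p = u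
      · have hur : r ≠ u := fun h => hpr (hup.trans h.symm)
        subst hup
        rw [if_pos rfl] at h1
        rw [if_neg hur] at h2
        omega
      · rw [if_neg hup] at h1
        by_cases hur : r = u
        · subst hur
          rw [if_pos rfl] at h2
          omega
        · rw [if_neg hur] at h2
          omega

/-- Module H. Existence of the thread structure (greedy construction). -/
theorem thread_exists : ∃ P Q : ℕ → ℕ, Thread P Q := by
  classical
  choose f hf using h_step
  have inv0 : HInv (fun _ => ((0:ℕ), (0:ℕ))) 0 := by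
    refine ⟨?_, ?_, ?_, ?_⟩
    · intro w hw; omega
    · intro w hw; omega
    · intro w hw; omega
    · intro u; simp [hch]
  let G : (z : ℕ) → {F : ℕ → ℕ × ℕ // HInv F z} := fun z =>
    Nat.rec (motive := fun z => {F : ℕ → ℕ × ℕ // HInv F z}) ⟨_, inv0⟩
      (fun z F => ⟨Function.update F.1 z (f z F.1 F.2), hf z F.1 F.2⟩) z
  have hG : ∀ z, (G (z + 1)).1 = Function.update (G z).1 z (f z (G z).1 (G z).2) := fun z => rfl
  have hst : ∀ w n, w + 1 ≤ n → (G n).1 w = (G (w + 1)).1 w := by
    intro w n hn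
    induction n, hn using Nat.le_induction with
    | base => rfl
    | succ n hn ih =>
      rw [hG, Function.update_of_ne (by omega)]
      exact ih
  refine ⟨fun z => ((G (z + 1)).1 z).1, fun z => ((G (z + 1)).1 z).2, ?_, ?_, ?_⟩
  · intro z hz
    exact (G (z + 1)).2.lev1 z (Nat.lt_succ_self z) hz
  · intro z hz
    exact (G (z + 1)).2.lev2 z (Nat.lt_succ_self z) hz
  · intro z hz
    obtain ⟨g, hg1, hg2, hg3⟩ := (G (z + 1)).2.far z (Nat.lt_succ_self z) hz
    refine ⟨g, ?_, hg2, hg3⟩
    intro y hy1 hy2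
    have := hg1 y hy1 hy2
    rw [hst y (z + 1) (by omega)] at this
    exact this

end Pool.Agent.C2bb60Neg
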