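import Pool.Agent.Work.MP_c2bb60_gt.Neg.ModF
set_option autoImplicit false
open Set Filter Topology Real
namespace Pool.Agent.C2bb60Neg

section
variable {W : Type} {Γ : SimpleGraph W} {m : ℕ}

private theorem G_coe (x y : W) : ((gd Γ m x y : ℕ) : ℕ∞) = min (Γ.edist x y) (m : ℕ∞) := by
  unfold gd
  exact ENat.natCast_toNat (ne_top_of_le_ne_top (ENat.natCast_ne_top m) (min_le_right _ _))

private theorem G_self (x : W) : gd Γ m x x = 0 := by
  have h := G_coe (Γ := Γ) (m := m) x x
  rw [SimpleGraph.edist_self, min_eq_left zero_le] at h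
  exact_mod_cast h

private theorem G_symm (x y : W) : gd Γ m x y = gd Γ m y x := by
  unfold gd; rw [SimpleGraph.edist_comm]

private theorem G_le (x y : W) : gd Γ m x y ≤ m := by
  have h := G_coe (Γ := Γ) (m := m) x y
  have h2 : ((gd Γ m x y : ℕ) : ℕ∞) ≤ (m : ℕ∞) := by rw [h]; exact min_le_right _ _
  exact_mod_cast h2

private theorem G_tri (x y z : W) : gd Γ m x z ≤ gd Γ m x y + gd Γ m y z := by
  have h : ((gd Γ m x z : ℕ) : ℕ∞) ≤ ((gd Γ m x y + gd Γ m y z : ℕ) : ℕ∞) := by
    push_cast
    rw [G_coe, G_coe, G_coe]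
    rcases le_total (Γ.edist x y) (m : ℕ∞) with h1 | h1
    · rcases le_total (Γ.edist y z) (m : ℕ∞) with h2 | h2
      · rw [min_eq_left h1, min_eq_left h2]
        exact (min_le_left _ _).trans SimpleGraph.edist_triangle
      · rw [min_eq_right h2]
        exact (min_le_right _ _).trans le_add_self
    · rw [min_eq_right h1]
      exact (min_le_right _ _).trans le_self_add
  exact_mod_cast h

private theorem G_of_edist {x y : W} {k : ℕ} (hk : k ≤ m) (h : Γ.edist x y = (k : ℕ∞)) :
    gd Γ m x y = k := by
  have h1 := G_coe (Γ := Γ) (m := m) x y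
  rw [h, min_eq_left (by exact_mod_cast hk)] at h1
  exact_mod_cast h1

private theorem G_to_edist {x y : W} {k : ℕ} (hk : k < m) (h : gd Γ m x y = k) :
    Γ.edist x y = (k : ℕ∞) := by
  have h1 := G_coe (Γ := Γ) (m := m) x y
  rw [h] at h1
  rcases le_total (Γ.edist x y) (m : ℕ∞) with h2 | h2
  · rw [min_eq_left h2] at h1; exact h1.symm
  · rw [min_eq_right h2] at h1
    have : k = m := by exact_mod_cast h1
    omega

private theorem G_steps (y : ℕ → W) (ℓ : ℕ) (hadj : ∀ j < ℓ, Γ.Adj (y j) (y (j + 1))) (j k : ℕ)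
    (h : j + k ≤ ℓ) : gd Γ m (y j) (y (j + k)) ≤ k := by
  induction k with
  | zero => rw [add_zero, G_self]
  | succ k ih =>
    have h1 := ih (by omega)
    have h2 := G_tri (Γ := Γ) (m := m) (y j) (y (j + k)) (y (j + (k + 1)))
    have h3 : gd Γ m (y (j + k)) (y (j + (k + 1))) ≤ 1 := by
      have h4 : Γ.edist (y (j + k)) (y (j + k + 1)) = 1 :=
        SimpleGraph.edist_eq_one_iff_adj.2 (hadj (j + k) (by omega))
      have h5 := G_coe (Γ := Γ) (m := m) (y (j + k)) (y (j + (k + 1)))
      have h6 : ((gd Γ m (y (j + k)) (y (j + (k + 1))) : ℕ) : ℕ∞) ≤ ((1 : ℕ) : ℕ∞) := by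
        rw [h5]
        refine (min_le_left _ _).trans ?_
        rw [← add_assoc, h4]; rfl
      exact_mod_cast h6
    omega

private theorem G_gang_le {x y : W} : gang Γ m x y ≤ π := by
  unfold gang
  rcases Nat.eq_zero_or_pos m with h | h
  · subst h; simp; exact Real.pi_pos.le
  · rw [div_le_iff₀ (by exact_mod_cast h)]
    have : (gd Γ m x y : ℝ) ≤ m := by exact_mod_cast G_le x y
    nlinarith [Real.pi_pos]

private theorem G_gang_nonneg {x y : W} : 0 ≤ gang Γ m x y := by
  unfold gang
  have := Real.pi_pos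
  positivity

/-- one side of the comparison -/
private theorem G_side (hm : 0 < m) (hT : T12 Γ m) {c : W} {δ ℓ : ℕ} (y : ℕ → W)
    (hadj : ∀ j < ℓ, Γ.Adj (y j) (y (j + 1))) (hne : ∀ j, j + 2 ≤ ℓ → y j ≠ y (j + 2))
    (hδ : Γ.edist c (y 0) = (δ : ℕ∞)) (hδm : δ < m) (hℓ1 : 1 ≤ ℓ) (hℓm : ℓ < m)
    (h1 : Γ.edist c (y 1) = ((δ + 1 : ℕ) : ℕ∞)) (hℓ : gd Γ m (y 0) (y ℓ) = ℓ) :
    Real.cos (gang Γ m c (y ℓ)) ≤ Real.cos (gang Γ m c (y 0) + gang Γ m (y 0) (y ℓ)) := by
  have hmR : (0:ℝ) < m := by exact_mod_cast hm
  have key : ∀ j, j + 1 ≤ ℓ → δ + (j + 1) ≤ m →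
      Γ.edist c (y j) = ((δ + j : ℕ) : ℕ∞) ∧ Γ.edist c (y (j + 1)) = ((δ + (j + 1) : ℕ) : ℕ∞) := by
    intro j
    induction j with
    | zero => intro _ _; exact ⟨hδ, h1⟩
    | succ j ih =>
      intro hj1 hj2
      obtain ⟨i1, i2⟩ := ih (by omega) (by omega)
      refine ⟨i2, ?_⟩
      rcases hT c (y (j + 1)) (y j) (y (j + 2)) (δ + (j + 1)) i2 (by omega)
        (hadj j (by omega)).symm (hadj (j + 1) (by omega)) (hne j (by omega)) with h2 | h2
      · rw [i1] at h2
        have : δ + j = δ + (j + 1) + 1 := by exact_mod_cast h2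
        omega
      · exact h2
  have e1 : gang Γ m c (y 0) = π * δ / m := by
    unfold gang; rw [G_of_edist hδm.le hδ]
  have e2 : gang Γ m (y 0) (y ℓ) = π * ℓ / m := by
    unfold gang; rw [hℓ]
  rw [e1, e2]
  rcases le_or_gt (δ + ℓ) m with hL | hL
  · have h2 := (key (ℓ - 1) (by omega) (by omega)).2
    rw [Nat.sub_add_cancel hℓ1] at h2
    have e3 : gang Γ m c (y ℓ) = π * δ / m + π * ℓ / m := by
      unfold gang; rw [G_of_edist hL h2]; push_cast; ring
    rw [e3]
  · obtain ⟨j, hj⟩ : ∃ j, j + 1 = m - δ := ⟨m - δ - 1, by omega⟩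
    have h2 := (key j (by omega) (by omega)).2
    have h3 : gd Γ m c (y (j + 1)) = m := G_of_edist le_rfl (by rw [h2]; congr 1; omega)
    have h4 := G_tri (Γ := Γ) (m := m) c (y ℓ) (y (j + 1))
    have h5 := G_steps (m := m) y ℓ hadj (j + 1) (ℓ - (j + 1)) (by omega)
    rw [show j + 1 + (ℓ - (j + 1)) = ℓ by omega, G_symm] at h5
    have h6 : 2 * m ≤ gd Γ m c (y ℓ) + (δ + ℓ) := by omega
    have h7 : 2 * (m : ℝ) ≤ (gd Γ m c (y ℓ) : ℝ) + ((δ : ℝ) + ℓ) := by exact_mod_cast h6
    have h8 : 2 * π - (π * δ / m + π * ℓ / m) ≤ gang Γ m c (y ℓ) := by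
      unfold gang
      rw [le_div_iff₀ hmR]
      have : (2 * π - (π * δ / m + π * ℓ / m)) * m = π * (2 * m - (δ + ℓ)) := by
        field_simp
      rw [this]
      exact mul_le_mul_of_nonneg_left (by linarith) Real.pi_pos.le
    rw [← Real.cos_two_pi_sub (π * δ / m + π * ℓ / m)]
    apply Real.cos_le_cos_of_nonneg_of_le_pi _ G_gang_le h8
    have h9 : π * δ / m + π * ℓ / m = π * ((δ : ℝ) + ℓ) / m := by ring
    rw [h9, sub_nonneg, div_le_iff₀ hmR]
    have h10 : (δ : ℝ) + ℓ ≤ 2 * m := by
      have : δ + ℓ ≤ 2 * m := by omega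
      exact_mod_cast this
    nlinarith [Real.pi_pos]

end

/-- Module G. The truncated graph angle is an `AngSpace` if `T12` holds. -/
theorem angSpace_gang {W : Type} (Γ : SimpleGraph W) (m : ℕ) (hm : 0 < m) (hT : T12 Γ m) :
    AngSpace W (gang Γ m) (π / m) := by
  have hmR : (0:ℝ) < m := by exact_mod_cast hm
  have hpi := Real.pi_pos
  refine ⟨?_, ?_, ?_, ?_, ?_, ?_⟩
  · intro a; unfold gang; rw [G_self]; simp
  · intro a b; unfold gang; rw [G_symm]
  · intro a b; exact G_gang_nonneg
  · intro a b; exact G_gang_le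
  · intro a b c
    unfold gang
    rw [← add_div]
    apply div_le_div_of_nonneg_right _ hmR.le
    rw [← mul_add]
    apply mul_le_mul_of_nonneg_left _ hpi.le
    exact_mod_cast G_tri a b c
  · intro a b hab s hs0 hsab
    have hd : gd Γ m a b < m := by
      by_contra hcon
      have h1 : gd Γ m a b = m := le_antisymm (G_le a b) (not_lt.1 hcon)
      unfold gang at hab
      rw [h1] at hab
      rw [mul_div_assoc, div_self hmR.ne', mul_one] at hab
      exact lt_irrefl _ hab
    set d := gd Γ m a b with hddef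
    have hE := G_to_edist hd hddef.symm
    obtain ⟨w, hw⟩ := SimpleGraph.exists_walk_of_edist_eq_coe hE
    set x : ℕ → W := fun i => w.getVert i with hx
    have hx0 : x 0 = a := w.getVert_zero
    have hxd : x d = b := by rw [hx]; simp only; rw [← hw]; exact w.getVert_length
    have hxadj : ∀ j < d, Γ.Adj (x j) (x (j + 1)) := fun j hj =>
      w.adj_getVert_succ (by omega)
    have hxsteps := G_steps (m := m) x d hxadj
    -- exact distances along the geodesic
    have hxx : ∀ j k, j + k ≤ d → gd Γ m (x j) (x (j + k)) = k := by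
      intro j k hjk
      have h1 := hxsteps j k hjk
      have h2 := hxsteps 0 j (by omega)
      have h3 := hxsteps (j + k) (d - (j + k)) (by omega)
      rw [zero_add] at h2
      rw [show j + k + (d - (j + k)) = d by omega] at h3
      have h4 := G_tri (Γ := Γ) (m := m) (x 0) (x j) (x d)
      have h5 := G_tri (Γ := Γ) (m := m) (x j) (x (j + k)) (x d)
      have h6 : gd Γ m (x 0) (x d) = d := by rw [hx0, hxd]
      omega
    have hsm0 : 0 ≤ s * m / π := by positivity
    set i : ℕ := ⌊s * m / π⌋₊ with hi
    have hid : i ≤ d := by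
      have h1 : s * m / π ≤ d := by
        rw [div_le_iff₀ hpi]
        have h2 : s ≤ π * (d : ℝ) / m := hsab
        rw [le_div_iff₀ hmR] at h2
        linarith
      exact_mod_cast (Nat.floor_le hsm0).trans h1
    have hae : gd Γ m a (x i) = i := by
      have := hxx 0 i (by omega)
      rw [zero_add, hx0] at this
      exact this
    have heb : gd Γ m (x i) b = d - i := by
      have := hxx i (d - i) (by omega)
      rw [show i + (d - i) = d by omega, hxd] at this
      exact this
    refine ⟨x i, ?_, ?_, ?_⟩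
    · unfold gang
      rw [hae]
      have h1 := Nat.floor_le hsm0
      have h2 := Nat.lt_floor_add_one (s * m / π)
      rw [← hi] at h1 h2
      rw [le_div_iff₀ hpi] at h1
      rw [div_lt_iff₀ hpi] at h2
      rw [abs_le]
      constructor
      · rw [neg_le_sub_iff_le_add, ← add_div, le_div_iff₀ hmR]
        linarith
      · have h3 : π * (i : ℝ) / m ≤ s := by
          rw [div_le_iff₀ hmR]; linarith
        have h4 : 0 ≤ π / m := by positivity
        linarith
    · unfold gang
      rw [hae, heb, ← hddef, ← add_div, ← mul_add]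
      congr 2
      rw [Nat.cast_sub hid]; ring
    · intro c
      rcases Nat.eq_zero_or_pos i with hi0 | hi0
      · right
        have e1 : x i = a := by rw [hi0, hx0]
        rw [e1]
        have e2 : gang Γ m a a = 0 := by unfold gang; rw [G_self]; simp
        rw [e2, add_zero]
      rcases hid.eq_or_lt with hi1 | hi1
      · left
        have e1 : x i = b := by rw [hi1, hxd]
        rw [e1]
        have e2 : gang Γ m b b = 0 := by unfold gang; rw [G_self]; simp
        rw [e2, add_zero]
      rcases (G_le (Γ := Γ) (m := m) c (x i)).eq_or_lt with hδ | hδ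
      · left
        have h1 := G_tri (Γ := Γ) (m := m) c b (x i)
        rw [hδ, G_symm b (x i), heb] at h1
        have h2 : gang Γ m c (x i) = π := by
          unfold gang; rw [hδ]; field_simp
        have h3 : gang Γ m (x i) b = π * ((d : ℝ) - i) / m := by
          unfold gang; rw [heb, Nat.cast_sub hid]
        rw [h2, h3]
        have h4 : (m : ℝ) ≤ (gd Γ m c b : ℝ) + ((d : ℝ) - i) := by
          have : (m : ℝ) ≤ ((gd Γ m c b + (d - i) : ℕ) : ℝ) := by exact_mod_cast h1
          rwa [Nat.cast_add, Nat.cast_sub hid] at this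
        have h5 : π - π * ((d : ℝ) - i) / m ≤ gang Γ m c b := by
          unfold gang
          rw [le_div_iff₀ hmR]
          have : (π - π * ((d : ℝ) - i) / m) * m = π * (m - ((d : ℝ) - i)) := by field_simp
          rw [this]
          exact mul_le_mul_of_nonneg_left (by linarith) hpi.le
        have h6 : Real.cos (π + π * ((d : ℝ) - i) / m) = Real.cos (π - π * ((d : ℝ) - i) / m) := by
          rw [Real.cos_pi_sub, add_comm, Real.cos_add_pi]
        rw [h6]
        apply Real.cos_le_cos_of_nonneg_of_le_pi _ G_gang_le h5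
        rw [sub_nonneg, div_le_iff₀ hmR]
        have h7 : (d : ℝ) - i ≤ m := by
          have : (d : ℝ) ≤ m := by exact_mod_cast hd.le
          have : (0:ℝ) ≤ i := Nat.cast_nonneg _
          linarith
        nlinarith
      · obtain ⟨δ, hδe⟩ : ∃ δ, gd Γ m c (x i) = δ := ⟨_, rfl⟩
        rw [hδe] at hδ
        have hδE := G_to_edist hδ hδe
        have hne2 : ∀ j, j + 2 ≤ d → x j ≠ x (j + 2) := by
          intro j hj heq
          have := hxx j 2 hj
          rw [← heq, G_self] at this
          omega
        obtain ⟨k, hk⟩ : ∃ k, i = k + 1 := ⟨i - 1, by omega⟩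
        rcases hT c (x i) (x k) (x (i + 1)) δ hδE hδ (by rw [hk]; exact (hxadj k (by omega)).symm)
          (hxadj i hi1) (by rw [hk]; exact hne2 k (by omega)) with h2 | h2
        · right
          have := G_side hm hT (c := c) (δ := δ) (ℓ := i) (fun j => x (i - j))
            (by
              intro j hj
              have h3 := (hxadj (i - (j + 1)) (by omega)).symm
              rwa [show i - (j + 1) + 1 = i - j by omega] at h3)
            (by
              intro j hj
              have h3 := (hne2 (i - (j + 2)) (by omega)).symm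
              rwa [show i - (j + 2) + 2 = i - j by omega] at h3)
            (by simpa using hδE) hδ (by omega) (by omega)
            (by
              rw [show i - 1 = k by omega]; exact h2)
            (by
              simp only [tsub_zero, tsub_self]
              rw [hx0, G_symm]; exact hae)
          simp only [tsub_zero, tsub_self, hx0] at this
          exact this
        · left
          have := G_side hm hT (c := c) (δ := δ) (ℓ := d - i) (fun j => x (i + j))
            (by intro j hj; exact hxadj (i + j) (by omega))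
            (by intro j hj; exact hne2 (i + j) (by omega))
            (by simpa using hδE) hδ (by omega) (by omega) h2
            (by
              simp only [add_zero]
              rw [show i + (d - i) = d by omega, hxd]; exact heb)
          simp only [add_zero, show i + (d - i) = d by omega, hxd] at this
          exact this

end Pool.Agent.C2bb60Neg
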