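import Pool.Agent.Work.MP_c2bb60_gt.Neg.ModE
import Pool.Agent.Work.MP_c2bb60_gt.Neg.ModG
set_option autoImplicit false
open Set Filter Topology Real
namespace Pool.Agent.C2bb60Neg

private theorem I_lev_mono {y z : ℕ} (h : y ≤ z) : lev y ≤ lev z := by
  unfold lev
  exact Nat.log_mono_right (Nat.succ_le_succ (Nat.div_le_div_right h))

private theorem I_q_pos (k : ℕ) : 3 ≤ q k := by unfold q; omega

/-- The thread path. -/
private def I_x (P Q : ℕ → ℕ) (a z : ℕ) (i : ℕ) : VV :=
  if i = 0 then (P z, 0) else if i < 2 * a then (z, (a : ℤ) - i) else (Q z, 0)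

private theorem I_x_zero (P Q : ℕ → ℕ) (a z : ℕ) : I_x P Q a z 0 = (P z, 0) := by
  simp [I_x]

private theorem I_x_mid (P Q : ℕ → ℕ) (a z : ℕ) {i : ℕ} (h0 : 0 < i) (h1 : i < 2 * a) :
    I_x P Q a z i = (z, (a : ℤ) - i) := by
  unfold I_x
  rw [if_neg (by omega), if_pos h1]

private theorem I_x_last (P Q : ℕ → ℕ) (a z : ℕ) (ha : 0 < a) :
    I_x P Q a z (2 * a) = (Q z, 0) := by
  unfold I_x
  rw [if_neg (by omega), if_neg (by omega)]

private theorem I_inj {P Q : ℕ → ℕ} {a z : ℕ} (ha : 0 < a) (h1 : P z ≠ z) (h2 : Q z ≠ z)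
    (h3 : P z ≠ Q z) : Set.InjOn (I_x P Q a z) (Set.Iic (2 * a)) := by
  intro i hi j hj hij
  rw [Set.mem_Iic] at hi hj
  rcases Nat.eq_zero_or_pos i with hi0 | hi0
  · rcases Nat.eq_zero_or_pos j with hj0 | hj0
    · omega
    · subst hi0
      rw [I_x_zero] at hij
      rcases lt_or_ge j (2 * a) with hj1 | hj1
      · rw [I_x_mid P Q a z hj0 hj1] at hij
        exact absurd (congrArg Prod.fst hij) h1
      · have : j = 2 * a := by omega
        subst this
        rw [I_x_last P Q a z ha] at hij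
        exact absurd (congrArg Prod.fst hij) h3
  · rcases lt_or_ge i (2 * a) with hi1 | hi1
    · rw [I_x_mid P Q a z hi0 hi1] at hij
      rcases Nat.eq_zero_or_pos j with hj0 | hj0
      · subst hj0
        rw [I_x_zero] at hij
        exact absurd (congrArg Prod.fst hij).symm h1
      · rcases lt_or_ge j (2 * a) with hj1 | hj1
        · rw [I_x_mid P Q a z hj0 hj1] at hij
          have := congrArg Prod.snd hij
          simp only at this
          omega
        · have : j = 2 * a := by omega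
          subst this
          rw [I_x_last P Q a z ha] at hij
          exact absurd (congrArg Prod.fst hij).symm h2
    · have hi2 : i = 2 * a := by omega
      subst hi2
      rw [I_x_last P Q a z ha] at hij
      rcases Nat.eq_zero_or_pos j with hj0 | hj0
      · subst hj0
        rw [I_x_zero] at hij
        exact absurd (congrArg Prod.fst hij).symm h3
      · rcases lt_or_ge j (2 * a) with hj1 | hj1
        · rw [I_x_mid P Q a z hj0 hj1] at hij
          exact absurd (congrArg Prod.fst hij) h2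
        · omega

private theorem I_adj {P Q : ℕ → ℕ} {m z n : ℕ} (hz : NN ≤ z) (hzn : z < n)
    (ha : 0 < aa m z) (h1 : P z ≠ z) (h2 : Q z ≠ z) :
    ∀ i < 2 * aa m z, (SubG P Q m n).Adj (I_x P Q (aa m z) z i) (I_x P Q (aa m z) z (i + 1)) := by
  intro i hi
  rw [SubG, SimpleGraph.fromRel_adj]
  rcases Nat.eq_zero_or_pos i with hi0 | hi0
  · subst hi0
    rw [I_x_zero, zero_add, I_x_mid P Q _ z (by norm_num) (by omega)]
    refine ⟨fun h => h1 (congrArg Prod.fst h), Or.inr ⟨hz, hzn, Or.inr (Or.inl ⟨?_, rfl⟩)⟩⟩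
    push_cast; ring
  · rw [I_x_mid P Q _ z hi0 hi]
    rcases lt_or_ge (i + 1) (2 * aa m z) with hi1 | hi1
    · rw [I_x_mid P Q _ z (by omega) hi1]
      refine ⟨fun h => ?_, Or.inr ⟨hz, hzn, Or.inl ⟨rfl, ?_, ?_, ?_⟩⟩⟩
      · have := congrArg Prod.snd h
        simp only at this
        push_cast at this
        omega
      · push_cast; ring
      · push_cast; omega
      · push_cast; omega
    · have : i + 1 = 2 * aa m z := by omega
      rw [this, I_x_last P Q _ z ha]
      refine ⟨fun h => h2 (congrArg Prod.fst h).symm,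
        Or.inl ⟨hz, hzn, Or.inr (Or.inr ⟨?_, rfl⟩)⟩⟩
      have h5 : (i : ℤ) + 1 = 2 * (aa m z : ℤ) := by exact_mod_cast this
      simp only
      linarith

private theorem I_gd_eq {W : Type} (Γ : SimpleGraph W) (m : ℕ) (x y : W) (ℓ : ℕ) (hℓ : ℓ ≤ m)
    (h : Γ.edist x y = (ℓ : ℕ∞)) : gd Γ m x y = ℓ := by
  unfold gd
  rw [h, min_eq_left (by exact_mod_cast hℓ)]
  rfl

/-- Height function on the subdivided graph. -/
private def I_H (m k : ℕ) : ℕ := ∑ j ∈ Finset.range k, m / q j

private theorem I_lip {P Q : ℕ → ℕ} (h : Thread P Q) (m n : ℕ) (hpos : ∀ k < lev n, 0 < m / q k) :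
    Lip (SubG P Q m n) (fun x => (I_H m (lev x.1) : ℤ) - |x.2|) := by
  have key : ∀ x y, SubRel P Q m n x y →
      |((I_H m (lev x.1) : ℤ) - |x.2|) - ((I_H m (lev y.1) : ℤ) - |y.2|)| ≤ 1 := by
    rintro ⟨z, j⟩ ⟨w, i⟩ ⟨hz, hzn, hh⟩
    simp only at hz hzn hh ⊢
    have hlz : lev (P z) + 1 = lev z := h.levP z hz
    have hlq : lev (Q z) + 1 = lev z := h.levQ z hz
    have hle : lev z ≤ lev n := I_lev_mono hzn.le
    have ha : 0 < aa m z := hpos _ (by omega)
    have hH : ∀ k, k + 1 = lev z → (I_H m (lev z) : ℤ) = I_H m k + (aa m z : ℤ) := by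
      intro k hk
      unfold I_H aa
      rw [← hk, Finset.sum_range_succ]
      push_cast
      rfl
    rcases hh with ⟨h1, h2, h3, h4⟩ | ⟨h1, h2⟩ | ⟨h1, h2⟩
    · subst h1; subst h2
      have h5 : |(|j + 1| - |j|)| ≤ |j + 1 - j| := abs_abs_sub_abs_le_abs_sub _ _
      rw [show j + 1 - j = 1 by ring, abs_one] at h5
      rw [show ((I_H m (lev z) : ℤ) - |j|) - ((I_H m (lev z) : ℤ) - |j + 1|) = |j + 1| - |j| by ring]
      exact h5
    · have e1 : w = P z := congrArg Prod.fst h2
      have e2 : i = 0 := congrArg Prod.snd h2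
      subst e1; subst e2; subst h1
      rw [hH (lev (P z)) hlz, abs_of_nonneg (show (0:ℤ) ≤ (aa m z : ℤ) - 1 by omega)]
      simp only [abs_zero]
      rw [abs_le]; constructor <;> omega
    · have e1 : w = Q z := congrArg Prod.fst h2
      have e2 : i = 0 := congrArg Prod.snd h2
      subst e1; subst e2; subst h1
      rw [hH (lev (Q z)) hlq, abs_neg, abs_of_nonneg (show (0:ℤ) ≤ (aa m z : ℤ) - 1 by omega)]
      simp only [abs_zero]
      rw [abs_le]; constructor <;> omega
  intro x y hxy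
  rw [SubG, SimpleGraph.fromRel_adj] at hxy
  rcases hxy.2 with h1 | h1
  · exact key x y h1
  · have := key y x h1
    rwa [abs_sub_comm] at this

private theorem I_walk {W : Type} {G : SimpleGraph W} {g : W → ℤ} (hg : Lip G g) {x y : W}
    (w : G.Walk x y) : g y - g x ≤ w.length := by
  induction w with
  | nil => simp
  | @cons u v w hadj p ih =>
    have h1 := (abs_le.1 (hg u v hadj)).1
    rw [SimpleGraph.Walk.length_cons]
    push_cast
    linarith

private theorem I_gd_ge {W : Type} {Γ : SimpleGraph W} {g : W → ℤ} (hg : Lip Γ g) (m : ℕ) (x y : W)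
    (D : ℕ) (hD : (D : ℤ) ≤ g y - g x) : min m D ≤ gd Γ m x y := by
  unfold gd
  have h1 : ((min m D : ℕ) : ℕ∞) ≤ min (Γ.edist x y) (m : ℕ∞) := by
    apply le_min
    · by_cases htop : Γ.edist x y = ⊤
      · rw [htop]; exact le_top
      · obtain ⟨w, hw⟩ := SimpleGraph.exists_walk_of_edist_ne_top htop
        rw [← hw]
        have h2 := I_walk hg w
        have h3 : D ≤ w.length := by omega
        exact_mod_cast (min_le_right m D).trans h3
    · exact_mod_cast min_le_left m D
  have h2 : min (Γ.edist x y) (m : ℕ∞) ≠ ⊤ :=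
    ne_top_of_le_ne_top (ENat.natCast_ne_top m) (min_le_right _ _)
  rw [← ENat.natCast_toNat h2] at h1
  exact_mod_cast h1

/-- Module I. The approximating angular spaces. -/
theorem approx_exists {P Q : ℕ → ℕ} (h : Thread P Q) :
    ∃ (ang : ℕ → VV → VV → ℝ) (ε : ℕ → ℝ), Approx P Q ang ε := by
  set m : ℕ → ℕ := fun n => (n + 1) * ∏ k ∈ Finset.range (lev n + 1), q k with hm
  have hprod : ∀ n, 0 < ∏ k ∈ Finset.range (lev n + 1), q k := fun n =>
    Finset.prod_pos (fun k _ => by have := I_q_pos k; omega)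
  have hmge : ∀ n, n + 1 ≤ m n := fun n => Nat.le_mul_of_pos_right _ (hprod n)
  have hmpos : ∀ n, 0 < m n := fun n => by have := hmge n; omega
  have hdiv : ∀ n, ∀ k < lev n, q k ∣ m n := fun n k hk =>
    (Finset.dvd_prod_of_mem q (Finset.mem_range.2 (by omega))).trans (Dvd.intro_left _ rfl)
  have hNS : ∀ n, NoShort (SubG P Q (m n) n) (2 * m n) := fun n =>
    subG_noShort h (m n) (hmpos n) n (hdiv n)
  have hquot : ∀ n, ∀ k < lev n, 0 < m n / q k := fun n k hk =>
    Nat.div_pos (Nat.le_of_dvd (hmpos n) (hdiv n k hk)) (by have := I_q_pos k; omega)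
  have hquotR : ∀ n, ∀ k < lev n, ((m n / q k : ℕ) : ℝ) = (m n : ℝ) / q k := fun n k hk => by
    rw [Nat.cast_div (hdiv n k hk) (by have := I_q_pos k; positivity)]
  -- thread facts
  have hfacts : ∀ z n, NN ≤ z → z < n → 0 < aa (m n) z ∧ 2 * aa (m n) z ≤ m n ∧
      ((aa (m n) z : ℕ) : ℝ) = (m n : ℝ) / q (lev (P z)) ∧ P z ≠ z ∧ Q z ≠ z ∧ P z ≠ Q z := by
    intro z n hz hzn
    have hlz : lev (P z) + 1 = lev z := h.levP z hz
    have hlq : lev (Q z) + 1 = lev z := h.levQ z hz
    have hle : lev z ≤ lev n := I_lev_mono hzn.le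
    have haa : aa (m n) z = m n / q (lev (P z)) := by
      unfold aa; rw [← hlz, Nat.add_sub_cancel]
    refine ⟨by rw [haa]; exact hquot n _ (by omega), ?_, by rw [haa]; exact hquotR n _ (by omega),
      ?_, ?_, ?_⟩
    · rw [haa]
      have h1 := Nat.div_mul_cancel (hdiv n (lev (P z)) (by omega))
      have h2 := I_q_pos (lev (P z))
      nlinarith [Nat.zero_le (m n / q (lev (P z)))]
    · intro hcon; rw [hcon] at hlz; omega
    · intro hcon; rw [hcon] at hlq; omega
    · intro hcon
      obtain ⟨g, -, hg1, hg2⟩ := h.far z hz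
      rw [hcon] at hg1
      rw [hg1] at hg2
      have := I_q_pos (lev (P z))
      omega
  have hang : ∀ z n (ℓ : ℕ) (x y : VV), z < n → ℓ ≤ m n →
      (SubG P Q (m n) n).edist x y = (ℓ : ℕ∞) →
      gang (SubG P Q (m n) n) (m n) x y = π * (ℓ : ℝ) / (m n : ℝ) := by
    intro z n ℓ x y _ hℓ he
    unfold gang
    rw [I_gd_eq _ _ _ _ ℓ hℓ he]
  refine ⟨fun n => gang (SubG P Q (m n) n) (m n), fun n => π / (m n : ℝ), ?_, ?_, ?_, ?_, ?_, ?_⟩
  · intro n
    exact angSpace_gang _ _ (hmpos n) (t12_of_noShort _ _ (hNS n))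
  · have h1 : Tendsto (fun n : ℕ => π * (1 / ((n : ℝ) + 1))) atTop (𝓝 (π * 0)) :=
      tendsto_one_div_add_atTop_nhds_zero_nat.const_mul π
    rw [mul_zero] at h1
    refine squeeze_zero (fun n => by positivity) (fun n => ?_) h1
    rw [div_eq_mul_one_div]
    apply mul_le_mul_of_nonneg_left _ Real.pi_pos.le
    apply one_div_le_one_div_of_le (by positivity)
    exact_mod_cast hmge n
  · intro z n hz hzn
    obtain ⟨ha, h2a, haR, hP, hQ, hPQ⟩ := hfacts z n hz hzn
    have hadj := I_adj (P := P) (Q := Q) hz hzn ha hP hQ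
    have hinj := I_inj ha hP hQ hPQ
    have hmR : (m n : ℝ) ≠ 0 := by exact_mod_cast (hmpos n).ne'
    have he := edist_path (SubG P Q (m n) n) (m n) (hNS n) (I_x P Q (aa (m n) z) z) (aa (m n) z)
      (by omega) (hinj.mono (Set.Iic_subset_Iic.2 (by omega))) (fun i hi => hadj i (by omega))
    rw [I_x_zero, I_x_mid P Q _ z ha (by omega), sub_self] at he
    show gang _ _ _ _ = _
    rw [hang z n _ _ _ hzn (by omega) he, haR]
    field_simp
  · intro z n hz hzn
    obtain ⟨ha, h2a, haR, hP, hQ, hPQ⟩ := hfacts z n hz hzn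
    have hadj := I_adj (P := P) (Q := Q) hz hzn ha hP hQ
    have hinj := I_inj ha hP hQ hPQ
    have hmR : (m n : ℝ) ≠ 0 := by exact_mod_cast (hmpos n).ne'
    have he := edist_path (SubG P Q (m n) n) (m n) (hNS n)
      (fun i => I_x P Q (aa (m n) z) z (aa (m n) z + i)) (aa (m n) z)
      (by omega) (by
        intro i hi j hj hij
        rw [Set.mem_Iic] at hi hj
        have := hinj (Set.mem_Iic.2 (by omega : aa (m n) z + i ≤ 2 * aa (m n) z))
          (Set.mem_Iic.2 (by omega : aa (m n) z + j ≤ 2 * aa (m n) z)) hij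
        omega)
      (fun i hi => hadj (aa (m n) z + i) (by omega))
    simp only [add_zero] at he
    rw [I_x_mid P Q _ z ha (by omega), sub_self,
      show aa (m n) z + aa (m n) z = 2 * aa (m n) z by ring, I_x_last P Q _ z ha] at he
    show gang _ _ _ _ = _
    rw [hang z n _ _ _ hzn (by omega) he, haR]
    field_simp
  · intro z n hz hzn
    obtain ⟨ha, h2a, haR, hP, hQ, hPQ⟩ := hfacts z n hz hzn
    have hadj := I_adj (P := P) (Q := Q) hz hzn ha hP hQ
    have hinj := I_inj ha hP hQ hPQ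
    have hmR : (m n : ℝ) ≠ 0 := by exact_mod_cast (hmpos n).ne'
    have he := edist_path (SubG P Q (m n) n) (m n) (hNS n) (I_x P Q (aa (m n) z) z)
      (2 * aa (m n) z) h2a hinj hadj
    rw [I_x_zero, I_x_last P Q _ z ha] at he
    show gang _ _ _ _ = _
    rw [hang z n _ _ _ hzn h2a he]
    push_cast
    rw [haR]
    field_simp
  · intro y z n hy hz hyz
    show _ ≤ gang _ _ _ _
    have hmR : (0:ℝ) < (m n : ℝ) := by exact_mod_cast hmpos n
    have hlip := I_lip h (m n) n (hquot n)
    have hle : lev z ≤ lev n := I_lev_mono hz.le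
    have hHmono : I_H (m n) (lev y) ≤ I_H (m n) (lev z) := by
      unfold I_H
      exact Finset.sum_le_sum_of_subset (Finset.range_subset_range.2 hyz)
    have hge := I_gd_ge hlip (m n) ((y, 0) : VV) ((z, 0) : VV)
      (I_H (m n) (lev z) - I_H (m n) (lev y)) (by
        simp only [abs_zero, sub_zero]
        rw [Nat.cast_sub hHmono])
    have hHR : ∀ k, k ≤ lev n → ((I_H (m n) k : ℕ) : ℝ) = (m n : ℝ) / π * ht k := by
      intro k hk
      unfold I_H ht
      push_cast
      rw [Finset.mul_sum]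
      apply Finset.sum_congr rfl
      intro j hj
      rw [Finset.mem_range] at hj
      rw [hquotR n j (by omega)]
      field_simp
    have hgeR : (min (m n) (I_H (m n) (lev z) - I_H (m n) (lev y)) : ℕ) ≤
        (gd (SubG P Q (m n) n) (m n) (y, 0) (z, 0) : ℝ) := by exact_mod_cast hge
    rw [Nat.cast_min, Nat.cast_sub hHmono, hHR _ hle, hHR _ (hyz.trans hle)] at hgeR
    unfold gang
    rw [le_div_iff₀ hmR]
    have hpi := Real.pi_pos
    have h5 : min π (ht (lev z) - ht (lev y)) * (m n : ℝ) =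
        π * min (m n : ℝ) ((m n : ℝ) / π * ht (lev z) - (m n : ℝ) / π * ht (lev y)) := by
      rcases le_total π (ht (lev z) - ht (lev y)) with hc | hc
      · rw [min_eq_left hc, min_eq_left]
        have : (m n : ℝ) / π * ht (lev z) - (m n : ℝ) / π * ht (lev y) =
            (m n : ℝ) / π * (ht (lev z) - ht (lev y)) := by ring
        rw [this]
        calc (m n : ℝ) = (m n : ℝ) / π * π := by field_simp
          _ ≤ _ := by gcongr
      · rw [min_eq_right hc, min_eq_right]
        · field_simp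
        · have : (m n : ℝ) / π * ht (lev z) - (m n : ℝ) / π * ht (lev y) =
            (m n : ℝ) / π * (ht (lev z) - ht (lev y)) := by ring
          rw [this]
          calc _ ≤ (m n : ℝ) / π * π := by gcongr
            _ = (m n : ℝ) := by field_simp
    rw [h5]
    exact mul_le_mul_of_nonneg_left hgeR hpi.le

end Pool.Agent.C2bb60Neg
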