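import Pool.Agent.Work.MP_c2bb60_gt.Neg.Defs
set_option autoImplicit false
open Set Filter Topology Real
namespace Pool.Agent.C2bb60Neg

private theorem modJ_q_ge (j : ℕ) : 3 ≤ q j := by unfold q; omega

private theorem modJ_q_lower (j : ℕ) : ((j : ℝ) + 13) / 6 ≤ (q j : ℝ) := by
  have h : j + 13 ≤ 6 * q j := by unfold q; omega
  have h' : ((j + 13 : ℕ) : ℝ) ≤ ((6 * q j : ℕ) : ℝ) := by exact_mod_cast h
  push_cast at h'
  linarith

private theorem modJ_cos_pos (j : ℕ) : 0 < cos (π / q j) := by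
  have h3 : (3 : ℝ) ≤ q j := by exact_mod_cast modJ_q_ge j
  apply cos_pos_of_mem_Ioo
  constructor
  · have : 0 < π / q j := div_pos pi_pos (by linarith)
    linarith [pi_pos]
  · rw [div_lt_div_iff₀ (by linarith) (by norm_num)]
    nlinarith [pi_pos]

private theorem modJ_cos_lower (j : ℕ) : 1 - 180 / ((j : ℝ) + 13) ^ 2 ≤ cos (π / q j) := by
  have hj : (0 : ℝ) < (j : ℝ) + 13 := by positivity
  have hq : (0 : ℝ) < q j := by
    have : (3 : ℝ) ≤ q j := by exact_mod_cast modJ_q_ge j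
    linarith
  have h1 := one_sub_sq_div_two_le_cos (x := π / q j)
  have h2 : (π / q j) ^ 2 / 2 ≤ 180 / ((j : ℝ) + 13) ^ 2 := by
    have hp : π ^ 2 ≤ 10 := by nlinarith [pi_lt_d2, pi_pos]
    have hql := modJ_q_lower j
    have h3 : ((j : ℝ) + 13) ^ 2 / 36 ≤ (q j : ℝ) ^ 2 := by
      have : ((j : ℝ) + 13) ^ 2 / 36 = (((j : ℝ) + 13) / 6) ^ 2 := by ring
      rw [this]
      exact pow_le_pow_left₀ (by positivity) hql 2
    rw [div_pow, div_div, div_le_div_iff₀ (by positivity) (by positivity)]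
    nlinarith [sq_nonneg ((j : ℝ) + 13)]
  linarith

private theorem modJ_rad_succ (k : ℕ) : rad (k + 1) = rad k * cos (π / q k) := by
  unfold rad
  rw [Finset.prod_range_succ]

private theorem modJ_rad_pos (k : ℕ) : 0 < rad k :=
  Finset.prod_pos fun j _ => modJ_cos_pos j

private theorem modJ_rad_anti : Antitone rad := by
  apply antitone_nat_of_succ_le
  intro k
  rw [modJ_rad_succ]
  have := mul_le_mul_of_nonneg_left (cos_le_one (π / q k)) (modJ_rad_pos k).le
  linarith

private theorem modJ_step (n : ℕ) :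
    rad 400 * (1 / 2 + 180 / ((n : ℝ) + 412)) ≤ rad (400 + n) := by
  induction n with
  | zero =>
    have h := modJ_rad_pos 400
    have h1 : (1 / 2 + 180 / (((0 : ℕ) : ℝ) + 412)) ≤ 1 := by norm_num
    simpa using mul_le_mul_of_nonneg_left h1 h.le
  | succ n ih =>
    have h := modJ_rad_pos 400
    have hcos := modJ_cos_lower (400 + n)
    have hcp := modJ_cos_pos (400 + n)
    have hm : (412 : ℝ) ≤ (n : ℝ) + 412 := by
      have : (0 : ℝ) ≤ (n : ℝ) := Nat.cast_nonneg n
      linarith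
    set m : ℝ := (n : ℝ) + 412 with hm_def
    have e1 : ((400 + n : ℕ) : ℝ) + 13 = m + 1 := by push_cast; rw [hm_def]; ring
    have e2 : (((n + 1 : ℕ) : ℝ) + 412) = m + 1 := by push_cast; rw [hm_def]; ring
    rw [e1] at hcos
    rw [e2]
    have hmp : (0 : ℝ) < m := by linarith
    have key : 1 / 2 + 180 / (m + 1) ≤ (1 / 2 + 180 / m) * (1 - 180 / (m + 1) ^ 2) := by
      have : (1 / 2 + 180 / m) * (1 - 180 / (m + 1) ^ 2) - (1 / 2 + 180 / (m + 1)) =
          (90 * m + 180 - 32400) / (m * (m + 1) ^ 2) := by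
        field_simp
        ring
      have h0 : 0 ≤ (90 * m + 180 - 32400) / (m * (m + 1) ^ 2) := by
        apply div_nonneg
        · linarith
        · positivity
      linarith
    have hpos : 0 ≤ 1 / 2 + 180 / m := by positivity
    calc rad 400 * (1 / 2 + 180 / (m + 1))
        ≤ rad 400 * ((1 / 2 + 180 / m) * (1 - 180 / (m + 1) ^ 2)) :=
          mul_le_mul_of_nonneg_left key h.le
      _ ≤ rad 400 * ((1 / 2 + 180 / m) * cos (π / q (400 + n))) :=
          mul_le_mul_of_nonneg_left (mul_le_mul_of_nonneg_left hcos hpos) h.le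
      _ = rad 400 * (1 / 2 + 180 / m) * cos (π / q (400 + n)) := by ring
      _ ≤ rad (400 + n) * cos (π / q (400 + n)) := mul_le_mul_of_nonneg_right ih hcp.le
      _ = rad (400 + (n + 1)) := by rw [← add_assoc, modJ_rad_succ]

/-- Module J1. -/
theorem rad_lower : ∃ c : ℝ, 0 < c ∧ ∀ k, c ≤ rad k := by
  refine ⟨rad 400 / 2, half_pos (modJ_rad_pos 400), fun k => ?_⟩
  have h := modJ_rad_pos 400
  rcases le_or_gt 400 k with hk | hk
  · obtain ⟨n, rfl⟩ := Nat.exists_eq_add_of_le hk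
    have h1 := modJ_step n
    have h2 : (0 : ℝ) < 180 / ((n : ℝ) + 412) := by positivity
    nlinarith [mul_pos h h2]
  · have h1 := modJ_rad_anti hk.le
    linarith

theorem rad_le_one (k : ℕ) : rad k ≤ 1 := by
  have h := modJ_rad_anti (Nat.zero_le k)
  have : rad 0 = 1 := by simp [rad]
  linarith

/-- Module J2. -/
theorem ht_tendsto : Tendsto ht atTop atTop := by
  refine tendsto_atTop_mono ?_ Real.tendsto_sum_range_one_div_nat_succ_atTop
  intro k
  unfold ht
  apply Finset.sum_le_sum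
  intro j _
  have h3 : (3 : ℝ) ≤ q j := by exact_mod_cast modJ_q_ge j
  have hle : q j ≤ 3 * (j + 1) := by unfold q; omega
  have hle' : (q j : ℝ) ≤ 3 * ((j : ℝ) + 1) := by exact_mod_cast hle
  rw [div_le_div_iff₀ (by positivity) (by linarith)]
  nlinarith [pi_gt_three, (Nat.cast_nonneg j : (0 : ℝ) ≤ (j : ℝ))]

end Pool.Agent.C2bb60Neg
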