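import Pool.Agent.Work.MP_c2bb60_gt.Neg.ModC
import Pool.Agent.Work.MP_c2bb60_gt.Neg.ModH
import Pool.Agent.Work.MP_c2bb60_gt.Neg.ModI
import Pool.Agent.Work.MP_c2bb60_gt.Neg.ModJ
import Pool.Agent.Work.MP_c2bb60_gt.Basic
set_option autoImplicit false
open Set Filter Topology
namespace Pool.Agent.C2bb60Neg

open Pool.Agent.Work.MP_c2bb60_gt in
/-- A geodesically closed set is midpoint closed. -/
private theorem K_midClosed {X : Type} [MetricSpace X] [CompleteSpace X] (h : CN X) {C : Set X}
    (hC : ∀ x ∈ C, ∀ y ∈ C, ∀ γ : ℝ → X, γ 0 = x → γ (dist x y) = y →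
      (∀ s ∈ Set.Icc (0:ℝ) (dist x y), ∀ t ∈ Set.Icc (0:ℝ) (dist x y),
        dist (γ s) (γ t) = |s - t|) →
      ∀ t ∈ Set.Icc (0:ℝ) (dist x y), γ t ∈ C) {a b m : X} (ha : a ∈ C) (hb : b ∈ C)
    (hm : IsMid a b m) : m ∈ C := by
  classical
  rcases eq_or_lt_of_le (dist_nonneg (x := a) (y := b)) with h0 | h0
  · have h1 : dist a m = 0 := by rw [hm.1, ← h0]; simp
    rw [← dist_eq_zero.1 h1]
    exact ha
  · set d := dist a b with hd
    have hex : ∀ t : Icc (0:ℝ) 1, ∃ p, IsPt a b t p := fun t => exists_pt h a b t.2.1 t.2.2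
    choose g hg using hex
    have hdiv : ∀ t ∈ Icc (0:ℝ) d, t / d ∈ Icc (0:ℝ) 1 := fun t ht =>
      ⟨div_nonneg ht.1 h0.le, (div_le_one h0).2 ht.2⟩
    let γ : ℝ → X := fun t => if ht : t / d ∈ Icc (0:ℝ) 1 then g ⟨t / d, ht⟩ else a
    have hγ : ∀ t ∈ Icc (0:ℝ) d, IsPt a b (t / d) (γ t) := by
      intro t ht
      have : γ t = g ⟨t / d, hdiv t ht⟩ := by
        simp only [γ]
        rw [dif_pos (hdiv t ht)]
      rw [this]
      exact hg ⟨t / d, hdiv t ht⟩
    have hmem := hC a ha b hb γ ?_ ?_ ?_ (d / 2) ⟨by linarith, by linarith⟩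
    · have h1 := hγ (d / 2) ⟨by linarith, by linarith⟩
      have h2 : d / 2 / d = 1 / 2 := by field_simp
      rw [h2] at h1
      have h3 : IsPt a b (1 / 2) m := ⟨by rw [hm.1]; ring, by rw [hm.2]; ring⟩
      rw [pt_unique h (by norm_num) (by norm_num) h3 h1]
      exact hmem
    · have h1 := (hγ 0 ⟨le_rfl, h0.le⟩).1
      rw [zero_div, zero_mul] at h1
      exact (dist_eq_zero.1 h1).symm
    · have h1 := (hγ d ⟨h0.le, le_rfl⟩).2
      rw [div_self h0.ne', sub_self, zero_mul] at h1
      exact dist_eq_zero.1 h1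
    · intro s hs t ht
      rcases le_total s t with hst | hst
      · rw [dist_pt_pt h (hdiv s hs).1 (by gcongr) (hdiv t ht).2 (hγ s hs) (hγ t ht),
          abs_of_nonpos (by linarith)]
        field_simp
        rw [← hd]
        ring
      · rw [dist_comm, dist_pt_pt h (hdiv t ht).1 (by gcongr) (hdiv s hs).2 (hγ t ht) (hγ s hs),
          abs_of_nonneg (by linarith)]
        field_simp
        rw [← hd]
        ring

private theorem K_lev_mono {a b : ℕ} (h : a ≤ b) : lev a ≤ lev b := by
  unfold lev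
  apply Nat.log_mono_right
  have := Nat.div_le_div_right (c := NN) h
  omega

private theorem K_lev_lt {z : ℕ} (h : z < NN) : lev z = 0 := by
  unfold lev
  rw [Nat.div_eq_of_lt h]
  simp

private theorem K_lev_block (k : ℕ) : lev (NN * (2 ^ k - 1)) = k := by
  unfold lev
  have hN : 0 < NN := by unfold NN; norm_num
  rw [Nat.mul_div_cancel_left _ hN]
  have : 1 ≤ 2 ^ k := Nat.one_le_two_pow
  rw [Nat.sub_add_cancel this]
  exact Nat.log_pow (by norm_num) k

private theorem K_q_pos (k : ℕ) : (3:ℝ) ≤ q k := by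
  unfold q
  push_cast
  have : (0:ℝ) ≤ ((k / 6 : ℕ) : ℝ) := by positivity
  linarith

private theorem K_rad_nonneg (k : ℕ) : 0 ≤ rad k := by
  obtain ⟨c, hc, hck⟩ := rad_lower
  exact hc.le.trans (hck k)

/-- Module K. Assembly. -/
theorem main :
    ¬ (∀ (X : Type) [MetricSpace X] [CompleteSpace X],
      (∀ x y : X, ∃ m : X, ∀ z : X,
          dist z m ^ 2 + dist x y ^ 2 / 4 ≤ (dist z x ^ 2 + dist z y ^ 2) / 2) →
      ∀ K : Set X, IsCompact K →
        IsCompact (⋂₀ {C : Set X | IsClosed C ∧ K ⊆ C ∧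
          ∀ x ∈ C, ∀ y ∈ C, ∀ γ : ℝ → X, γ 0 = x → γ (dist x y) = y →
            (∀ s ∈ Set.Icc (0:ℝ) (dist x y), ∀ t ∈ Set.Icc (0:ℝ) (dist x y),
              dist (γ s) (γ t) = |s - t|) →
            ∀ t ∈ Set.Icc (0:ℝ) (dist x y), γ t ∈ C})) := by
  intro H
  obtain ⟨P, Q, hT⟩ := thread_exists
  obtain ⟨ang, ε, hA⟩ := approx_exists hT
  obtain ⟨X, _, _, ι, hCN, hι⟩ := ultralimit ang ε hA.lim hA.space
  obtain ⟨c, hc, hck⟩ := rad_lower
  have hrad : ∀ k, rad k ∈ Icc (0:ℝ) 1 := fun k => ⟨K_rad_nonneg k, rad_le_one k⟩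
  -- distances in the limit from eventual values
  have hdist : ∀ (p p' : VV × ℝ), p.2 ∈ Icc (0:ℝ) 1 → p'.2 ∈ Icc (0:ℝ) 1 → ∀ v : ℝ, ∀ N : ℕ,
      (∀ n, N < n → cd (ang n) p p' = v) → dist (ι p) (ι p') = v := by
    intro p p' hp hp' v N hv
    have h1 := hι p p' hp hp'
    have h2 : Tendsto (fun n => cd (ang n) p p') (hyperfilter ℕ) (𝓝 v) := by
      have h3 : Tendsto (fun n => cd (ang n) p p') atTop (𝓝 v) := by
        apply tendsto_const_nhds.congr'
        filter_upwards [eventually_gt_atTop N] with n hn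
        exact (hv n hn).symm
      exact h3.mono_left (by rw [← Nat.cofinite_eq_atTop]; exact hyperfilter_le_cofinite)
    exact tendsto_nhds_unique h1 h2
  set K : Set X := (fun z : ℕ => ι ((z, 0), 1)) '' (Iio NN) with hK
  have hKc : IsCompact K := ((Set.finite_Iio NN).image _).isCompact
  have hcomp := H X hCN K hKc
  set hull : Set X := ⋂₀ {C : Set X | IsClosed C ∧ K ⊆ C ∧
          ∀ x ∈ C, ∀ y ∈ C, ∀ γ : ℝ → X, γ 0 = x → γ (dist x y) = y →
            (∀ s ∈ Set.Icc (0:ℝ) (dist x y), ∀ t ∈ Set.Icc (0:ℝ) (dist x y),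
              dist (γ s) (γ t) = |s - t|) →
            ∀ t ∈ Set.Icc (0:ℝ) (dist x y), γ t ∈ C} with hhull
  -- all thread points lie in the hull
  have hmem : ∀ z : ℕ, ι ((z, 0), rad (lev z)) ∈ hull := by
    intro z
    rw [hhull]
    rintro C ⟨hCc, hKC, hCg⟩
    induction z using Nat.strong_induction_on with
    | _ z ih =>
      rcases lt_or_ge z NN with hz | hz
      · rw [K_lev_lt hz]
        apply hKC
        refine ⟨z, hz, ?_⟩
        simp [rad]
      · have hP1 := hT.levP z hz
        have hQ1 := hT.levQ z hz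
        have hPz : P z < z := by
          by_contra hcon
          have := K_lev_mono (not_lt.1 hcon)
          omega
        have hQz : Q z < z := by
          by_contra hcon
          have := K_lev_mono (not_lt.1 hcon)
          omega
        have hPQ : lev (Q z) = lev (P z) := by omega
        set k := lev (P z) with hk
        have hzk : lev z = k + 1 := hP1.symm
        set θ : ℝ := Real.pi / q k with hθ
        have hθ0 : 0 < θ := by
          have := K_q_pos k
          have := Real.pi_pos
          positivity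
        have hθπ : θ < Real.pi := by
          have h3 := K_q_pos k
          have := Real.pi_pos
          rw [hθ, div_lt_iff₀ (by linarith)]
          nlinarith
        have hsin : 0 ≤ Real.sin θ := Real.sin_nonneg_of_nonneg_of_le_pi hθ0.le hθπ.le
        have hr' : rad (k + 1) = rad k * Real.cos θ := by
          unfold rad
          rw [Finset.prod_range_succ]
        have hr0 := K_rad_nonneg k
        have d1 : dist (ι ((P z, 0), rad k)) (ι ((z, 0), rad (k + 1))) = rad k * Real.sin θ := by
          refine hdist _ _ (hrad _) (hrad _) _ z (fun n hn => ?_)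
          simp only [cd]
          rw [hA.angP z n hz hn, ← hθ, hr']
          rw [show rad k ^ 2 + (rad k * Real.cos θ) ^ 2 - 2 * rad k * (rad k * Real.cos θ) *
            Real.cos θ = (rad k * Real.sin θ) ^ 2 by
              have := Real.sin_sq_add_cos_sq θ
              linear_combination (- rad k ^ 2) * this]
          exact Real.sqrt_sq (by positivity)
        have d2 : dist (ι ((z, 0), rad (k + 1))) (ι ((Q z, 0), rad k)) = rad k * Real.sin θ := by
          refine hdist _ _ (hrad _) (hrad _) _ z (fun n hn => ?_)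
          simp only [cd]
          rw [hA.angQ z n hz hn, ← hθ, hr']
          rw [show (rad k * Real.cos θ) ^ 2 + rad k ^ 2 - 2 * (rad k * Real.cos θ) * rad k *
            Real.cos θ = (rad k * Real.sin θ) ^ 2 by
              have := Real.sin_sq_add_cos_sq θ
              linear_combination (- rad k ^ 2) * this]
          exact Real.sqrt_sq (by positivity)
        have d3 : dist (ι ((P z, 0), rad k)) (ι ((Q z, 0), rad k)) = 2 * (rad k * Real.sin θ) := by
          refine hdist _ _ (hrad _) (hrad _) _ z (fun n hn => ?_)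
          simp only [cd]
          rw [hA.angPQ z n hz hn, ← hθ, Real.cos_two_mul]
          rw [show rad k ^ 2 + rad k ^ 2 - 2 * rad k * rad k *
            (2 * Real.cos θ ^ 2 - 1) = (2 * (rad k * Real.sin θ)) ^ 2 by
              have := Real.sin_sq_add_cos_sq θ
              linear_combination (- 4 * rad k ^ 2) * this]
          exact Real.sqrt_sq (by positivity)
        have hmid : Pool.Agent.Work.MP_c2bb60_gt.IsMid (ι ((P z, 0), rad k)) (ι ((Q z, 0), rad k))
            (ι ((z, 0), rad (k + 1))) := by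
          refine ⟨?_, ?_⟩
          · rw [d1, d3]; ring
          · rw [d2, d3]; ring
        rw [hzk]
        refine K_midClosed hCN hCg ?_ ?_ hmid
        · exact ih (P z) hPz
        · have := ih (Q z) hQz
          rwa [hPQ] at this
  -- separated sequence
  have hnext : ∀ k : ℕ, ∃ k' : ℕ, k < k' ∧ ht k + Real.pi ≤ ht k' := by
    intro k
    have h1 := ht_tendsto.eventually_ge_atTop (ht k + Real.pi)
    obtain ⟨k', hk1, hk2⟩ := (h1.and (eventually_gt_atTop k)).exists
    exact ⟨k', hk2, hk1⟩
  choose nx hnx1 hnx2 using hnext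
  let ks : ℕ → ℕ := fun i => nx^[i] 0
  have hks : ∀ i, ks (i + 1) = nx (ks i) := fun i => Function.iterate_succ_apply' nx i 0
  have hsm : StrictMono ks := strictMono_nat_of_lt_succ (fun i => by rw [hks]; exact hnx1 _)
  have hsep : ∀ i j, i < j → ht (ks i) + Real.pi ≤ ht (ks j) := by
    intro i j hij
    induction j, hij using Nat.le_induction with
    | base => rw [hks]; exact hnx2 _
    | succ j _ ih =>
      rw [hks]
      have := hnx2 (ks j)
      have := Real.pi_pos
      linarith
  let zs : ℕ → ℕ := fun i => NN * (2 ^ (ks i) - 1)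
  have hzs : ∀ i, lev (zs i) = ks i := fun i => K_lev_block _
  let pt : ℕ → X := fun i => ι ((zs i, 0), rad (ks i))
  have hpt : ∀ i, pt i ∈ hull := by
    intro i
    have := hmem (zs i)
    rwa [hzs] at this
  have hfar : ∀ i j, i < j → 2 * c ≤ dist (pt i) (pt j) := by
    intro i j hij
    have : dist (pt i) (pt j) = rad (ks i) + rad (ks j) := by
      refine hdist _ _ (hrad _) (hrad _) _ (max (zs i) (zs j)) (fun n hn => ?_)
      simp only [cd]
      have h1 : ang n (zs i, 0) (zs j, 0) = Real.pi := by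
        apply le_antisymm ((hA.space n).le_pi _ _)
        have h2 := hA.height (zs i) (zs j) n (lt_of_le_of_lt (le_max_left _ _) hn)
          (lt_of_le_of_lt (le_max_right _ _) hn) (by rw [hzs, hzs]; exact (hsm hij).le)
        rw [hzs, hzs, min_eq_left (by have := hsep i j hij; linarith)] at h2
        exact h2
      rw [h1, Real.cos_pi]
      rw [show rad (ks i) ^ 2 + rad (ks j) ^ 2 - 2 * rad (ks i) * rad (ks j) * (-1) =
        (rad (ks i) + rad (ks j)) ^ 2 by ring]
      exact Real.sqrt_sq (add_nonneg (K_rad_nonneg _) (K_rad_nonneg _))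
    rw [this]
    have := hck (ks i)
    have := hck (ks j)
    linarith
  obtain ⟨a, _, φ, hφ, hlim⟩ := hcomp.tendsto_subseq hpt
  have hcau := hlim.cauchySeq
  rw [Metric.cauchySeq_iff] at hcau
  obtain ⟨N, hN⟩ := hcau (2 * c) (by linarith)
  have h1 := hN N le_rfl (N + 1) (by omega)
  have h2 := hfar (φ N) (φ (N + 1)) (hφ (Nat.lt_succ_self N))
  simp only [Function.comp] at h1
  linarith

end Pool.Agent.C2bb60Neg
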