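import Mathlib

/-!
# MP_c2bb60 (negation S13882): common definitions

Plan.  The counterexample is (an ultralimit of) Euclidean cones over graphs of girth `≥ 2π`.
-/

set_option autoImplicit false

namespace Pool.Agent.C2bb60Neg

/-- An approximately geodesic angular space: `ang` is a pseudometric with values in `[0,π]`,
with approximate geodesics whose cone comparison `(K)` holds. -/
structure AngSpace (V : Type) (ang : V → V → ℝ) (ε : ℝ) : Prop where
  self : ∀ a, ang a a = 0
  symm : ∀ a b, ang a b = ang b a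
  nonneg : ∀ a b, 0 ≤ ang a b
  le_pi : ∀ a b, ang a b ≤ Real.pi
  tri : ∀ a b c, ang a c ≤ ang a b + ang b c
  geo : ∀ a b, ang a b < Real.pi → ∀ s, 0 ≤ s → s ≤ ang a b →
    ∃ e, |ang a e - s| ≤ ε ∧ ang a e + ang e b = ang a b ∧
      ∀ c, Real.cos (ang c b) ≤ Real.cos (ang c e + ang e b) ∨
        Real.cos (ang c a) ≤ Real.cos (ang c e + ang e a)

/-- Euclidean cone distance; points are pairs (direction, radius). -/
noncomputable def cd {V : Type} (ang : V → V → ℝ) (p q : V × ℝ) : ℝ :=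
  Real.sqrt (p.2 ^ 2 + q.2 ^ 2 - 2 * p.2 * q.2 * Real.cos (ang p.1 q.1))

/-- Every cycle of `Γ` has length at least `L`. -/
def NoShort {W : Type} (Γ : SimpleGraph W) (L : ℕ) : Prop :=
  ∀ (a : W) (w : Γ.Walk a a), w.IsCycle → L ≤ w.length

/-- The truncated graph distance, as a natural number `≤ m`. -/
noncomputable def gd {W : Type} (Γ : SimpleGraph W) (m : ℕ) (x y : W) : ℕ :=
  (min (Γ.edist x y) (m : ℕ∞)).toNat

/-- The angle function of a graph: edges have length `π / m`, truncated at `π`. -/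
noncomputable def gang {W : Type} (Γ : SimpleGraph W) (m : ℕ) (x y : W) : ℝ :=
  Real.pi * (gd Γ m x y : ℝ) / m

/-- `1`-Lipschitz integer functions on a graph. -/
def Lip {W : Type} (Γ : SimpleGraph W) (g : W → ℤ) : Prop :=
  ∀ x y, Γ.Adj x y → |g x - g y| ≤ 1

/-- Base cardinality. -/
def NN : ℕ := 5 * 64 ^ 3

/-- Level of a thread vertex. -/
def lev (z : ℕ) : ℕ := Nat.log 2 (z / NN + 1)

/-- The angular step at level `k` is `π / q k`. -/
def q (k : ℕ) : ℕ := k / 6 + 3

/-- A thread structure: each vertex `z ≥ NN` has two parents `P z`, `Q z` one level below, and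
the parents are at hop-distance `≥ 2 q` in the thread graph on the vertices `< z`
(witnessed by a `1`-Lipschitz function). -/
structure Thread (P Q : ℕ → ℕ) : Prop where
  levP : ∀ z, NN ≤ z → lev (P z) + 1 = lev z
  levQ : ∀ z, NN ≤ z → lev (Q z) + 1 = lev z
  far : ∀ z, NN ≤ z → ∃ h : ℕ → ℤ,
    (∀ y, NN ≤ y → y < z → |h (P y) - h y| ≤ 1 ∧ |h (Q y) - h y| ≤ 1) ∧
    h (P z) = 0 ∧ h (Q z) = 2 * (q (lev (P z)) : ℤ)

/-- The vertex type of the subdivided graphs: `(z, 0)` is the thread vertex `z`; `(z, j)` with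
`0 < j` is the point at distance `j` from `z` on the thread from `z` to `P z`, and `(z, j)` with
`j < 0` is the point at distance `-j` from `z` on the thread from `z` to `Q z`. -/
abbrev VV : Type := ℕ × ℤ

/-- Thread length below `z` in units `π / m`: `a z = m / q (lev z - 1)`. -/
def aa (m : ℕ) (z : ℕ) : ℕ := m / q (lev z - 1)

/-- Basic relation generating the subdivided graph at stage `z₀` (only threads of `z < z₀`). -/
def SubRel (P Q : ℕ → ℕ) (m z₀ : ℕ) (x y : VV) : Prop :=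
  NN ≤ x.1 ∧ x.1 < z₀ ∧
    ((x.1 = y.1 ∧ y.2 = x.2 + 1 ∧ -(aa m x.1 : ℤ) < x.2 ∧ y.2 < (aa m x.1 : ℤ)) ∨
     (x.2 = (aa m x.1 : ℤ) - 1 ∧ y = (P x.1, 0)) ∨
     (x.2 = -((aa m x.1 : ℤ) - 1) ∧ y = (Q x.1, 0)))

/-- The subdivided graph. -/
def SubG (P Q : ℕ → ℕ) (m z₀ : ℕ) : SimpleGraph VV := SimpleGraph.fromRel (SubRel P Q m z₀)

/-- Radii: `ρ k = ∏_{j<k} cos (π / q j)`. -/
noncomputable def rad (k : ℕ) : ℝ := ∏ j ∈ Finset.range k, Real.cos (Real.pi / q j)

/-- Heights: `ht k = ∑_{j<k} π / q j`. -/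
noncomputable def ht (k : ℕ) : ℝ := ∑ j ∈ Finset.range k, Real.pi / q j

/-- The output of the graph part: for every `n` an angular space on `VV` with error `≤ ε n`,
with the thread distances as prescribed for thread vertices `< n`. -/
structure Approx (P Q : ℕ → ℕ) (ang : ℕ → VV → VV → ℝ) (ε : ℕ → ℝ) : Prop where
  space : ∀ n, AngSpace VV (ang n) (ε n)
  lim : Filter.Tendsto ε Filter.atTop (nhds 0)
  angP : ∀ z n, NN ≤ z → z < n → ang n (P z, 0) (z, 0) = Real.pi / q (lev (P z))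
  angQ : ∀ z n, NN ≤ z → z < n → ang n (z, 0) (Q z, 0) = Real.pi / q (lev (P z))
  angPQ : ∀ z n, NN ≤ z → z < n → ang n (P z, 0) (Q z, 0) = 2 * (Real.pi / q (lev (P z)))
  height : ∀ y z n, y < n → z < n → lev y ≤ lev z →
    min Real.pi (ht (lev z) - ht (lev y)) ≤ ang n (y, 0) (z, 0)

end Pool.Agent.C2bb60Neg
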