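import Pool.Agent.Work.MP_c2bb60_gt.Neg.Defs
set_option autoImplicit false
open Set Filter Topology Real
namespace Pool.Agent.C2bb60Neg

/-- the planar triangle inequality in polar coordinates -/
private theorem modA_planar (r s t α β : ℝ) :
    √(r ^ 2 + t ^ 2 - 2 * r * t * cos (α + β)) ≤
      √(r ^ 2 + s ^ 2 - 2 * r * s * cos α) + √(s ^ 2 + t ^ 2 - 2 * s * t * cos β) := by
  have h := norm_sub_le_norm_sub_add_norm_sub
    (⟨r * cos α, r * sin α⟩ : ℂ) (⟨s, 0⟩ : ℂ) (⟨t * cos β, -(t * sin β)⟩ : ℂ)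
  have ha := sin_sq_add_cos_sq α
  have hb := sin_sq_add_cos_sq β
  rw [Complex.norm_eq_sqrt_sq_add_sq, Complex.norm_eq_sqrt_sq_add_sq,
    Complex.norm_eq_sqrt_sq_add_sq] at h
  simp only [Complex.sub_re, Complex.sub_im] at h
  have e1 : (r * cos α - t * cos β) ^ 2 + (r * sin α - -(t * sin β)) ^ 2 =
      r ^ 2 + t ^ 2 - 2 * r * t * cos (α + β) := by
    rw [cos_add]
    linear_combination r ^ 2 * ha + t ^ 2 * hb
  have e2 : (r * cos α - s) ^ 2 + (r * sin α - 0) ^ 2 = r ^ 2 + s ^ 2 - 2 * r * s * cos α := by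
    linear_combination r ^ 2 * ha
  have e3 : (s - t * cos β) ^ 2 + (0 - -(t * sin β)) ^ 2 = s ^ 2 + t ^ 2 - 2 * s * t * cos β := by
    linear_combination t ^ 2 * hb
  rwa [e1, e2, e3] at h

/-- Module A. Triangle inequality in the Euclidean cone. -/
theorem cone_tri {r s t α β γ : ℝ} (hr : 0 ≤ r) (hs : 0 ≤ s) (ht : 0 ≤ t)
    (hα : α ∈ Icc 0 π) (hβ : β ∈ Icc 0 π) (hγ : γ ∈ Icc 0 π) (h : γ ≤ α + β) :
    √(r ^ 2 + t ^ 2 - 2 * r * t * cos γ) ≤
      √(r ^ 2 + s ^ 2 - 2 * r * s * cos α) + √(s ^ 2 + t ^ 2 - 2 * s * t * cos β) := by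
  have hrt : 0 ≤ r * t := mul_nonneg hr ht
  have hst : 0 ≤ s * t := mul_nonneg hs ht
  rcases le_or_gt (α + β) π with h1 | h1
  · refine le_trans (Real.sqrt_le_sqrt ?_) (modA_planar r s t α β)
    have hc : cos (α + β) ≤ cos γ := cos_le_cos_of_nonneg_of_le_pi hγ.1 h1 h
    nlinarith [mul_le_mul_of_nonneg_left hc hrt]
  · have h2 := modA_planar r s t α (π - α)
    have h3 : α + (π - α) = π := by ring
    rw [h3] at h2
    refine le_trans (Real.sqrt_le_sqrt ?_) (le_trans h2 ?_)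
    · have hc : cos π ≤ cos γ := by rw [cos_pi]; exact neg_one_le_cos γ
      nlinarith [mul_le_mul_of_nonneg_left hc hrt]
    · have hc : cos β ≤ cos (π - α) :=
        cos_le_cos_of_nonneg_of_le_pi (by linarith [hα.2]) hβ.2 (by linarith)
      have : √(s ^ 2 + t ^ 2 - 2 * s * t * cos (π - α)) ≤
          √(s ^ 2 + t ^ 2 - 2 * s * t * cos β) := by
        apply Real.sqrt_le_sqrt
        nlinarith [mul_le_mul_of_nonneg_left hc hst]
      linarith

end Pool.Agent.C2bb60Neg
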