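import Pool.Agent.Work.MP_c2bb60_gt.Neg.Defs
set_option autoImplicit false
open Set Filter Topology Real
namespace Pool.Agent.C2bb60Neg

/-! ## Module B : approximate CN inequality -/

theorem b_cd_sq {V : Type} (ang : V → V → ℝ) (p q : V × ℝ) (hp : 0 ≤ p.2) (hq : 0 ≤ q.2) :
    cd ang p q ^ 2 = p.2 ^ 2 + q.2 ^ 2 - 2 * p.2 * q.2 * Real.cos (ang p.1 q.1) := by
  unfold cd
  apply Real.sq_sqrt
  have h1 := Real.cos_le_one (ang p.1 q.1)
  have h2 : 0 ≤ 2 * p.2 * q.2 * (1 - Real.cos (ang p.1 q.1)) := by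
    apply mul_nonneg (by positivity) (by linarith)
  nlinarith [sq_nonneg (p.2 - q.2)]

theorem b_cos_lip (x y : ℝ) : Real.cos x - Real.cos y ≤ |x - y| := by
  have h : LipschitzWith 1 Real.cos := by
    apply lipschitzWith_of_nnnorm_deriv_le Real.differentiable_cos
    intro x
    rw [Real.deriv_cos, ← NNReal.coe_le_coe]
    simp only [nnnorm_neg, coe_nnnorm, NNReal.coe_one, Real.norm_eq_abs]
    exact Real.abs_sin_le_one x
  have h1 := h.dist_le_mul x y
  rw [Real.dist_eq, Real.dist_eq] at h1
  simp only [NNReal.coe_one, one_mul] at h1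
  exact (le_abs_self _).trans h1

/-- Module B. Approximate CN inequality in the cone over an `AngSpace`. -/
theorem cd_cn {V : Type} {ang : V → V → ℝ} {ε : ℝ} (h : AngSpace V ang ε) (x y : V × ℝ)
    (hx : x.2 ∈ Icc (0:ℝ) 1) (hy : y.2 ∈ Icc (0:ℝ) 1) :
    ∃ m : V × ℝ, m.2 ∈ Icc (0:ℝ) 1 ∧ ∀ z : V × ℝ, z.2 ∈ Icc (0:ℝ) 1 →
      cd ang z m ^ 2 + cd ang x y ^ 2 / 4 ≤ (cd ang z x ^ 2 + cd ang z y ^ 2) / 2 + 2 * ε := by
  obtain ⟨a, r⟩ := x
  obtain ⟨b, s⟩ := y
  simp only at hx hy
  obtain ⟨hr0, hr1⟩ := hx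
  obtain ⟨hs0, hs1⟩ := hy
  have hε : 0 ≤ ε := by
    obtain ⟨e, he, -⟩ := h.geo a a (by rw [h.self]; exact Real.pi_pos) 0 le_rfl
      (by rw [h.self])
    exact (abs_nonneg _).trans he
  rcases lt_or_ge (ang a b) π with hα | hα
  · set α := ang a b with hαdef
    have hα0 : 0 ≤ α := h.nonneg a b
    -- the balanced direction
    obtain ⟨α₁, hα₁, hbal⟩ : ∃ α₁ ∈ Icc (0:ℝ) α, r * sin α₁ - s * sin (α - α₁) = 0 := by
      have hc : ContinuousOn (fun u => r * sin u - s * sin (α - u)) (Icc 0 α) := by fun_prop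
      have := intermediate_value_Icc hα0 hc
      have hsin : 0 ≤ sin α := Real.sin_nonneg_of_nonneg_of_le_pi hα0 hα.le
      have h0 : (0:ℝ) ∈ Icc (r * sin 0 - s * sin (α - 0)) (r * sin α - s * sin (α - α)) := by
        simp only [sin_zero, mul_zero, sub_zero, zero_sub, sub_self]
        constructor
        · have := mul_nonneg hs0 hsin; linarith
        · exact mul_nonneg hr0 hsin
      obtain ⟨u, hu, hu2⟩ := this h0
      exact ⟨u, hu, hu2⟩
    set α₂ := α - α₁ with hα₂def
    have hα₂0 : 0 ≤ α₂ := by rw [hα₂def]; linarith [hα₁.2]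
    have hα₂le : α₂ ≤ α := by rw [hα₂def]; linarith [hα₁.1]
    have hbal' : r * sin α₁ = s * sin α₂ := by linarith
    set ρ := (r * cos α₁ + s * cos α₂) / 2 with hρ
    have hcosα : cos α = cos α₁ * cos α₂ - sin α₁ * sin α₂ := by
      rw [← Real.cos_add]; congr 1; rw [hα₂def]; ring
    have hsinα : sin α = sin α₁ * cos α₂ + cos α₁ * sin α₂ := by
      rw [← Real.sin_add]; congr 1; rw [hα₂def]; ring
    have hρsq : 4 * ρ ^ 2 = r ^ 2 + s ^ 2 + 2 * r * s * cos α := by
      have e1 := Real.sin_sq_add_cos_sq α₁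
      have e2 := Real.sin_sq_add_cos_sq α₂
      have e3 : r ^ 2 * cos α₁ ^ 2 = r ^ 2 - (r * sin α₁) * (s * sin α₂) := by
        rw [← hbal']
        have : cos α₁ ^ 2 = 1 - sin α₁ ^ 2 := by linarith
        rw [this]; ring
      have e4 : s ^ 2 * cos α₂ ^ 2 = s ^ 2 - (r * sin α₁) * (s * sin α₂) := by
        rw [hbal']
        have : cos α₂ ^ 2 = 1 - sin α₂ ^ 2 := by linarith
        rw [this]; ring
      rw [hcosα]
      have : 4 * ρ ^ 2 = r ^ 2 * cos α₁ ^ 2 + s ^ 2 * cos α₂ ^ 2
          + 2 * r * s * (cos α₁ * cos α₂) := by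
        rw [hρ]; ring
      rw [this, e3, e4]; ring
    have hρ0 : 0 ≤ ρ := by
      have hs2 : 0 ≤ sin α₂ := Real.sin_nonneg_of_nonneg_of_le_pi hα₂0 (by linarith)
      rcases eq_or_lt_of_le hs2 with h0 | h0
      · have ha2 : α₂ = 0 := by
          by_contra hne
          have : 0 < sin α₂ := Real.sin_pos_of_pos_of_lt_pi
            (lt_of_le_of_ne hα₂0 (Ne.symm hne)) (by linarith)
          linarith
        rw [ha2, sin_zero, mul_zero] at hbal'
        rcases mul_eq_zero.1 hbal' with hr | hs
        · rw [hρ, hr, ha2]; simp; linarith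
        · have ha1 : α₁ = 0 := by
            by_contra hne
            have : 0 < sin α₁ := Real.sin_pos_of_pos_of_lt_pi
              (lt_of_le_of_ne hα₁.1 (Ne.symm hne)) (by linarith [hα₁.2])
            linarith
          rw [hρ, ha1, ha2]; simp; linarith
      · have hsin : 0 ≤ sin α := Real.sin_nonneg_of_nonneg_of_le_pi hα0 hα.le
        have e1 : 2 * ρ * sin α₂ = r * sin α := by
          rw [hsinα, hρ]
          linear_combination (-cos α₂) * hbal'
        have e2 : 0 ≤ 2 * ρ * sin α₂ := by rw [e1]; exact mul_nonneg hr0 hsin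
        by_contra hneg
        push Not at hneg
        have : 2 * ρ * sin α₂ < 0 := by nlinarith
        linarith
    have hρ1 : ρ ≤ 1 := by
      rw [hρ]
      have e1 := mul_le_mul_of_nonneg_left (Real.cos_le_one α₁) hr0
      have e2 := mul_le_mul_of_nonneg_left (Real.cos_le_one α₂) hs0
      linarith
    obtain ⟨e, he1, he2, heK⟩ := h.geo a b hα α₁ hα₁.1 hα₁.2
    refine ⟨(e, ρ), ⟨hρ0, hρ1⟩, ?_⟩
    rintro ⟨c, t⟩ ⟨ht0, ht1⟩
    simp only at ht0 ht1
    rw [b_cd_sq ang _ _ ht0 hρ0, b_cd_sq ang _ _ hr0 hs0, b_cd_sq ang _ _ ht0 hr0,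
      b_cd_sq ang _ _ ht0 hs0]
    simp only
    rw [← hαdef]
    set δ := ang c e
    set γa := ang c a
    set γb := ang c b
    set β₁ := ang a e
    set β₂ := ang e b
    have hbe := abs_le.1 he1
    have hβ₂ : β₂ - α₂ = -(β₁ - α₁) := by rw [hα₂def]; linarith
    have key : r * cos γa + s * cos γb ≤ 2 * ρ * cos δ + 2 * ε := by
      have hrs : (r + s) * ε ≤ 2 * ε := by nlinarith
      rcases heK c with hK | hK
      · have hga : cos γa ≤ cos (δ - β₁) := by
          rw [← Real.cos_abs (δ - β₁)]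
          apply Real.cos_le_cos_of_nonneg_of_le_pi (abs_nonneg _) (h.le_pi c a)
          rw [abs_le]
          constructor
          · have := h.tri a c e
            have e3 := h.symm a c
            linarith
          · have := h.tri c a e
            linarith
        have l1 : cos (δ - β₁) ≤ cos (δ - α₁) + ε := by
          have h1 := b_cos_lip (δ - β₁) (δ - α₁)
          have h2 : |δ - β₁ - (δ - α₁)| ≤ ε := by
            rw [show δ - β₁ - (δ - α₁) = -(β₁ - α₁) by ring, abs_neg]; exact he1
          linarith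
        have l2 : cos (δ + β₂) ≤ cos (δ + α₂) + ε := by
          have h1 := b_cos_lip (δ + β₂) (δ + α₂)
          have h2 : |δ + β₂ - (δ + α₂)| ≤ ε := by
            rw [show δ + β₂ - (δ + α₂) = β₂ - α₂ by ring, hβ₂, abs_neg]; exact he1
          linarith
        have l3 : r * cos γa ≤ r * (cos (δ - α₁) + ε) :=
          mul_le_mul_of_nonneg_left (hga.trans l1) hr0
        have l4 : s * cos γb ≤ s * (cos (δ + α₂) + ε) :=
          mul_le_mul_of_nonneg_left (hK.trans l2) hs0
        have l5 : r * cos (δ - α₁) + s * cos (δ + α₂) = 2 * ρ * cos δ := by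
          rw [Real.cos_sub, Real.cos_add, hρ]
          linear_combination sin δ * hbal'
        linarith
      · have hgb : cos γb ≤ cos (δ - β₂) := by
          rw [← Real.cos_abs (δ - β₂)]
          apply Real.cos_le_cos_of_nonneg_of_le_pi (abs_nonneg _) (h.le_pi c b)
          rw [abs_le]
          constructor
          · have := h.tri e c b
            have e3 := h.symm e c
            linarith
          · have := h.tri c b e
            have e3 := h.symm b e
            linarith
        have hK' : cos γa ≤ cos (δ + β₁) := by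
          have e3 : ang e a = β₁ := h.symm e a
          rw [e3] at hK
          exact hK
        have l1 : cos (δ - β₂) ≤ cos (δ - α₂) + ε := by
          have h1 := b_cos_lip (δ - β₂) (δ - α₂)
          have h2 : |δ - β₂ - (δ - α₂)| ≤ ε := by
            rw [show δ - β₂ - (δ - α₂) = -(β₂ - α₂) by ring, hβ₂, neg_neg]; exact he1
          linarith
        have l2 : cos (δ + β₁) ≤ cos (δ + α₁) + ε := by
          have h1 := b_cos_lip (δ + β₁) (δ + α₁)
          have h2 : |δ + β₁ - (δ + α₁)| ≤ ε := by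
            rw [show δ + β₁ - (δ + α₁) = β₁ - α₁ by ring]; exact he1
          linarith
        have l3 : r * cos γa ≤ r * (cos (δ + α₁) + ε) :=
          mul_le_mul_of_nonneg_left (hK'.trans l2) hr0
        have l4 : s * cos γb ≤ s * (cos (δ - α₂) + ε) :=
          mul_le_mul_of_nonneg_left (hgb.trans l1) hs0
        have l5 : r * cos (δ + α₁) + s * cos (δ - α₂) = 2 * ρ * cos δ := by
          rw [Real.cos_sub, Real.cos_add, hρ]
          linear_combination (-sin δ) * hbal'
        linarith
    have key2 : t * (r * cos γa + s * cos γb) ≤ t * (2 * ρ * cos δ) + 2 * ε := by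
      have h1 := mul_le_mul_of_nonneg_left key ht0
      have h2 : t * (2 * ε) ≤ 2 * ε := by nlinarith
      linarith
    nlinarith
  · have hα' : ang a b = π := le_antisymm (h.le_pi a b) hα
    rcases le_total s r with hsr | hsr
    · refine ⟨(a, (r - s) / 2), ⟨by simp only; linarith, by simp only; linarith⟩, ?_⟩
      rintro ⟨c, t⟩ ⟨ht0, ht1⟩
      simp only at ht0 ht1
      rw [b_cd_sq ang _ _ ht0 (by simp only; linarith), b_cd_sq ang _ _ hr0 hs0,
        b_cd_sq ang _ _ ht0 hr0, b_cd_sq ang _ _ ht0 hs0]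
      simp only
      rw [hα', Real.cos_pi]
      have h1 : cos (ang c b) ≤ - cos (ang c a) := by
        rw [← Real.cos_pi_sub]
        apply Real.cos_le_cos_of_nonneg_of_le_pi _ (h.le_pi c b)
        · have := h.tri a c b
          rw [hα', h.symm a c] at this
          linarith
        · linarith [h.le_pi c a]
      have h2 : t * s * cos (ang c b) ≤ t * s * (- cos (ang c a)) :=
        mul_le_mul_of_nonneg_left h1 (mul_nonneg ht0 hs0)
      nlinarith
    · refine ⟨(b, (s - r) / 2), ⟨by simp only; linarith, by simp only; linarith⟩, ?_⟩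
      rintro ⟨c, t⟩ ⟨ht0, ht1⟩
      simp only at ht0 ht1
      rw [b_cd_sq ang _ _ ht0 (by simp only; linarith), b_cd_sq ang _ _ hr0 hs0,
        b_cd_sq ang _ _ ht0 hr0, b_cd_sq ang _ _ ht0 hs0]
      simp only
      rw [hα', Real.cos_pi]
      have h1 : cos (ang c a) ≤ - cos (ang c b) := by
        rw [← Real.cos_pi_sub]
        apply Real.cos_le_cos_of_nonneg_of_le_pi _ (h.le_pi c a)
        · have := h.tri a c b
          rw [hα', h.symm a c] at this
          linarith
        · linarith [h.le_pi c b]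
      have h2 : t * r * cos (ang c a) ≤ t * r * (- cos (ang c b)) :=
        mul_le_mul_of_nonneg_left h1 (mul_nonneg ht0 hr0)
      nlinarith

end Pool.Agent.C2bb60Neg
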