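import Pool.Agent.Work.MP_c2bb60_gt.Neg.ModA
import Pool.Agent.Work.MP_c2bb60_gt.Neg.ModB
set_option autoImplicit false
open Set Filter Topology
namespace Pool.Agent.C2bb60Neg

namespace ModC

/-! ### CN inequality in pseudometric spaces -/

/-- `m` satisfies the CN inequality for `x`, `y` -/
def P {S : Type*} [PseudoMetricSpace S] (x y m : S) : Prop :=
  ∀ z : S, dist z m ^ 2 + dist x y ^ 2 / 4 ≤ (dist z x ^ 2 + dist z y ^ 2) / 2

variable {S : Type*} [PseudoMetricSpace S]

theorem P.symm {x y m : S} (h : P x y m) : P y x m := by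
  intro z
  have := h z
  rw [dist_comm y x]
  linarith

theorem P.dist_left {x y m : S} (h : P x y m) : dist m x = dist x y / 2 := by
  have h1 := h x
  have h2 := h y
  rw [dist_self] at h1 h2
  rw [dist_comm y x] at h2
  have hd : 0 ≤ dist x y := dist_nonneg
  have h3 : dist x m ≤ dist x y / 2 := by
    apply le_of_sq_le_sq _ (by linarith); nlinarith
  have h4 : dist y m ≤ dist x y / 2 := by
    apply le_of_sq_le_sq _ (by linarith); nlinarith
  have h5 := dist_triangle x m y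
  rw [dist_comm y m] at h4
  rw [dist_comm m x]
  linarith

theorem P.right {x y z m m' : S} (hm : P x y m) (hm' : P x z m') :
    dist m m' ≤ dist y z / 2 := by
  have h1 := hm' m
  have h2 := hm z
  rw [hm.dist_left] at h1
  rw [dist_comm z m, dist_comm z x, dist_comm z y] at h2
  have hd : 0 ≤ dist y z := dist_nonneg
  apply le_of_sq_le_sq _ (by linarith)
  nlinarith

theorem P.mid_mid (hCN : ∀ x y : S, ∃ m, P x y m) {x y a b m m' : S} (hm : P x y m)
    (hm' : P a b m') : dist m m' ≤ (dist x a + dist y b) / 2 := by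
  obtain ⟨n, hn⟩ := hCN x b
  have h1 := hm.right hn
  have h2 := hn.symm.right hm'.symm
  have := dist_triangle m n m'
  linarith

/-- the CN inequality passes to the completion -/
theorem completion_cn (hCN : ∀ x y : S, ∃ m, P x y m)
    (x y : UniformSpace.Completion S) : ∃ m : UniformSpace.Completion S, P x y m := by
  have hseq : ∀ x : UniformSpace.Completion S, ∃ u : ℕ → S,
      Tendsto (fun n => (u n : UniformSpace.Completion S)) atTop (𝓝 x) := by
    intro x
    have hx : x ∈ closure (range ((↑) : S → UniformSpace.Completion S)) :=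
      UniformSpace.Completion.denseRange_coe x
    obtain ⟨v, hv, hlim⟩ := mem_closure_iff_seq_limit.1 hx
    choose u hu using hv
    refine ⟨u, ?_⟩
    simp only [hu]
    exact hlim
  obtain ⟨u, hu⟩ := hseq x
  obtain ⟨v, hv⟩ := hseq y
  choose m hm using fun n => hCN (u n) (v n)
  have hcu := hu.cauchySeq
  have hcv := hv.cauchySeq
  have hcm : CauchySeq (fun n => (m n : UniformSpace.Completion S)) := by
    rw [Metric.cauchySeq_iff] at hcu hcv ⊢
    intro ε hε
    obtain ⟨N₁, h1⟩ := hcu ε hε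
    obtain ⟨N₂, h2⟩ := hcv ε hε
    refine ⟨max N₁ N₂, fun k hk l hl => ?_⟩
    have h3 := h1 k (le_trans (le_max_left _ _) hk) l (le_trans (le_max_left _ _) hl)
    have h4 := h2 k (le_trans (le_max_right _ _) hk) l (le_trans (le_max_right _ _) hl)
    rw [UniformSpace.Completion.dist_eq] at h3 h4 ⊢
    have h5 := P.mid_mid hCN (hm k) (hm l)
    linarith
  obtain ⟨M, hM⟩ := cauchySeq_tendsto_of_complete hcm
  refine ⟨M, fun z => ?_⟩
  obtain ⟨w, hw⟩ := hseq z
  have hL : Tendsto (fun n => dist (w n : UniformSpace.Completion S) (m n) ^ 2 +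
      dist (u n : UniformSpace.Completion S) (v n) ^ 2 / 4) atTop
      (𝓝 (dist z M ^ 2 + dist x y ^ 2 / 4)) :=
    ((hw.dist hM).pow 2).add (((hu.dist hv).pow 2).div_const 4)
  have hR : Tendsto (fun n => (dist (w n : UniformSpace.Completion S) (u n) ^ 2 +
      dist (w n : UniformSpace.Completion S) (v n) ^ 2) / 2) atTop
      (𝓝 ((dist z x ^ 2 + dist z y ^ 2) / 2)) :=
    (((hw.dist hu).pow 2).add ((hw.dist hv).pow 2)).div_const 2
  refine le_of_tendsto_of_tendsto' hL hR fun n => ?_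
  simp only [UniformSpace.Completion.dist_eq]
  exact hm n (w n)

/-! ### cone distances -/

variable {V : Type} {ang : V → V → ℝ} {ε : ℝ}

theorem cd_nonneg (p q : V × ℝ) : 0 ≤ cd ang p q := Real.sqrt_nonneg _

theorem cd_le_two {p q : V × ℝ} (hp : p.2 ∈ Icc (0:ℝ) 1) (hq : q.2 ∈ Icc (0:ℝ) 1) :
    cd ang p q ≤ 2 := by
  rw [cd, Real.sqrt_le_left (by norm_num)]
  have h1 := Real.neg_one_le_cos (ang p.1 q.1)
  have h2 : 0 ≤ p.2 * q.2 := mul_nonneg hp.1 hq.1
  nlinarith [hp.1, hp.2, hq.1, hq.2, mul_le_mul_of_nonneg_left h1 h2]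

theorem cd_self (h : AngSpace V ang ε) (p : V × ℝ) : cd ang p p = 0 := by
  rw [cd, h.self, Real.cos_zero]
  have : p.2 ^ 2 + p.2 ^ 2 - 2 * p.2 * p.2 * 1 = 0 := by ring
  rw [this, Real.sqrt_zero]

theorem cd_comm (h : AngSpace V ang ε) (p q : V × ℝ) : cd ang p q = cd ang q p := by
  rw [cd, cd, h.symm p.1 q.1]
  congr 1
  ring

theorem cd_triangle (h : AngSpace V ang ε) {p q r : V × ℝ} (hp : 0 ≤ p.2) (hq : 0 ≤ q.2)
    (hr : 0 ≤ r.2) : cd ang p r ≤ cd ang p q + cd ang q r :=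
  cone_tri hp hq hr ⟨h.nonneg _ _, h.le_pi _ _⟩ ⟨h.nonneg _ _, h.le_pi _ _⟩
    ⟨h.nonneg _ _, h.le_pi _ _⟩ (h.tri _ _ _)

/-! ### the ultralimit -/

/-- sequences of points of the cones with radii in `[0,1]` -/
def Sq (V : Type) : Type := {f : ℕ → V × ℝ // ∀ n, (f n).2 ∈ Icc (0:ℝ) 1}

theorem exists_lim (ang : ℕ → V → V → ℝ) (f g : Sq V) :
    ∃ x : ℝ, Tendsto (fun n => cd (ang n) (f.1 n) (g.1 n)) (hyperfilter ℕ) (𝓝 x) := by
  have h : ∀ n, cd (ang n) (f.1 n) (g.1 n) ∈ Icc (0:ℝ) 2 := fun n =>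
    ⟨cd_nonneg _ _, cd_le_two (f.2 n) (g.2 n)⟩
  have h1 : ((hyperfilter ℕ).map (fun n => cd (ang n) (f.1 n) (g.1 n)) : Filter ℝ) ≤
      𝓟 (Icc (0:ℝ) 2) := by
    rw [Filter.le_principal_iff]
    exact Filter.mem_map.2 (Filter.mem_of_superset Filter.univ_mem (fun n _ => h n))
  obtain ⟨x, -, hx⟩ := isCompact_Icc.ultrafilter_le_nhds
    ((hyperfilter ℕ).map (fun n => cd (ang n) (f.1 n) (g.1 n))) h1
  exact ⟨x, hx⟩

/-- the limit distance -/
noncomputable def dl (ang : ℕ → V → V → ℝ) (f g : Sq V) : ℝ := (exists_lim ang f g).choose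

theorem dl_spec (ang : ℕ → V → V → ℝ) (f g : Sq V) :
    Tendsto (fun n => cd (ang n) (f.1 n) (g.1 n)) (hyperfilter ℕ) (𝓝 (dl ang f g)) :=
  (exists_lim ang f g).choose_spec

/-- the pseudometric space of sequences -/
@[reducible] noncomputable def pm {ang : ℕ → V → V → ℝ} {ε : ℕ → ℝ}
    (hs : ∀ n, AngSpace V (ang n) (ε n)) : PseudoMetricSpace (Sq V) where
  dist := dl ang
  dist_self f := by
    refine tendsto_nhds_unique (dl_spec ang f f) ?_
    simp only [cd_self (hs _)]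
    exact tendsto_const_nhds
  dist_comm f g := by
    refine tendsto_nhds_unique (dl_spec ang f g) ?_
    have := dl_spec ang g f
    simpa only [cd_comm (hs _) (g.1 _) (f.1 _)] using this
  dist_triangle f g h := by
    refine le_of_tendsto_of_tendsto' (dl_spec ang f h)
      ((dl_spec ang f g).add (dl_spec ang g h)) fun n => ?_
    exact cd_triangle (hs n) (f.2 n).1 (g.2 n).1 (h.2 n).1

end ModC

open ModC in
/-- Module C. The ultralimit of cones (radii in `[0,1]`) is a complete CN space. -/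
theorem ultralimit {V : Type} (ang : ℕ → V → V → ℝ) (ε : ℕ → ℝ)
    (hε : Tendsto ε atTop (𝓝 0)) (hs : ∀ n, AngSpace V (ang n) (ε n)) :
    ∃ (X : Type) (_ : MetricSpace X) (_ : CompleteSpace X) (ι : V × ℝ → X),
      (∀ x y : X, ∃ m : X, ∀ z : X,
          dist z m ^ 2 + dist x y ^ 2 / 4 ≤ (dist z x ^ 2 + dist z y ^ 2) / 2) ∧
      ∀ p q : V × ℝ, p.2 ∈ Icc (0:ℝ) 1 → q.2 ∈ Icc (0:ℝ) 1 →
        Tendsto (fun n => cd (ang n) p q) (hyperfilter ℕ) (𝓝 (dist (ι p) (ι q))) := by
  classical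
  let _ : PseudoMetricSpace (Sq V) := pm hs
  have hdist : ∀ f g : Sq V, dist f g = dl ang f g := fun f g => rfl
  have hCN : ∀ x y : Sq V, ∃ m, P x y m := by
    intro f g
    choose m hm1 hm2 using fun n => cd_cn (hs n) (f.1 n) (g.1 n) (f.2 n) (g.2 n)
    refine ⟨⟨m, hm1⟩, fun z => ?_⟩
    rw [hdist, hdist, hdist, hdist]
    have hε' : Tendsto ε (hyperfilter ℕ) (𝓝 0) := hε.mono_left Nat.hyperfilter_le_atTop
    have hL := ((dl_spec ang z ⟨m, hm1⟩).pow 2).add (((dl_spec ang f g).pow 2).div_const 4)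
    have hR := ((((dl_spec ang z f).pow 2).add ((dl_spec ang z g).pow 2)).div_const 2).add
      (hε'.const_mul 2)
    rw [mul_zero, add_zero] at hR
    exact le_of_tendsto_of_tendsto' hL hR fun n => hm2 n (z.1 n) (z.2 n)
  let e : V × ℝ → Sq V := fun p => ⟨fun _ => if p.2 ∈ Icc (0:ℝ) 1 then p else (p.1, 0), by
    intro n
    by_cases hp : p.2 ∈ Icc (0:ℝ) 1
    · simp only [if_pos hp]; exact hp
    · simp only [if_neg hp]; exact ⟨le_rfl, zero_le_one⟩⟩
  refine ⟨UniformSpace.Completion (Sq V), inferInstance, inferInstance,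
    fun p => (e p : UniformSpace.Completion (Sq V)), completion_cn hCN, ?_⟩
  intro p q hp hq
  rw [UniformSpace.Completion.dist_eq, hdist]
  have h1 := dl_spec ang (e p) (e q)
  have h2 : (fun n => cd (ang n) ((e p).1 n) ((e q).1 n)) = fun n => cd (ang n) p q := by
    funext n
    simp only [e, if_pos hp, if_pos hq]
  rw [h2] at h1
  exact h1

end Pool.Agent.C2bb60Neg
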