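import Pool.Agent.Work.MP_c2bb60_gt.Neg.Defs

/-!
# Module D2: adding a path of fresh vertices creates no short cycle
-/

set_option autoImplicit false
open Set Filter Topology
namespace Pool.Agent.C2bb60Neg

private theorem D2_lip_walk {W : Type} {G : SimpleGraph W} {g : W → ℤ} (hg : Lip G g) :
    ∀ {u v : W} (w : G.Walk u v), |g u - g v| ≤ (w.length : ℤ) := by
  intro u v w
  induction w with
  | nil => simp
  | @cons a b c hab p ih =>
    have h1 := hg a b hab
    have h2 : g a - g c = (g a - g b) + (g b - g c) := by ring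
    rw [h2, SimpleGraph.Walk.length_cons]
    push_cast
    calc |g a - g b + (g b - g c)| ≤ |g a - g b| + |g b - g c| := abs_add_le _ _
      _ ≤ (p.length : ℤ) + 1 := by linarith

private def D2G {W : Type} (Γ : SimpleGraph W) (x : ℕ → W) (k : ℕ) : SimpleGraph W :=
  Γ ⊔ SimpleGraph.fromEdgeSet {e | ∃ i < k, e = s(x i, x (i + 1))}

private theorem D2_adj {W : Type} (Γ : SimpleGraph W) (x : ℕ → W) (k : ℕ) {a b : W}
    (hab : (D2G Γ x k).Adj a b) :
    Γ.Adj a b ∨ ∃ i < k, (a = x i ∧ b = x (i + 1)) ∨ (a = x (i + 1) ∧ b = x i) := by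
  unfold D2G at hab
  rw [SimpleGraph.sup_adj, SimpleGraph.fromEdgeSet_adj] at hab
  rcases hab with h | ⟨⟨i, hi, he⟩, -⟩
  · exact Or.inl h
  · refine Or.inr ⟨i, hi, ?_⟩
    rw [Sym2.eq_iff] at he
    exact he

private theorem D2_zero {W : Type} (Γ : SimpleGraph W) (x : ℕ → W) : D2G Γ x 0 = Γ := by
  unfold D2G
  ext a b
  rw [SimpleGraph.sup_adj, SimpleGraph.fromEdgeSet_adj]
  simp

private theorem D2_succ {W : Type} (Γ : SimpleGraph W) (x : ℕ → W) (k : ℕ) :
    D2G Γ x (k + 1) = D2G Γ x k ⊔ SimpleGraph.edge (x k) (x (k + 1)) := by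
  unfold D2G
  ext a b
  simp only [SimpleGraph.sup_adj, SimpleGraph.fromEdgeSet_adj, SimpleGraph.edge, Set.mem_ofPred_eq,
    Set.mem_singleton_iff]
  constructor
  · rintro (h | ⟨⟨i, hi, he⟩, hne⟩)
    · exact Or.inl (Or.inl h)
    · rcases Nat.lt_succ_iff_lt_or_eq.mp hi with h' | h'
      · exact Or.inl (Or.inr ⟨⟨i, h', he⟩, hne⟩)
      · subst h'
        exact Or.inr ⟨he, hne⟩
  · rintro ((h | ⟨⟨i, hi, he⟩, hne⟩) | ⟨he, hne⟩)
    · exact Or.inl h
    · exact Or.inr ⟨⟨i, by omega, he⟩, hne⟩
    · exact Or.inr ⟨⟨k, by omega, he⟩, hne⟩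

private theorem D2_no_walk {W : Type} {G : SimpleGraph W} {u v : W} (hne : u ≠ v)
    (hv : ∀ y, ¬ G.Adj v y) (w : G.Walk u v) : False := by
  have := w.reverse
  cases this with
  | nil => exact hne rfl
  | cons h _ => exact hv _ h

private theorem D2_split {W : Type} (Γ : SimpleGraph W) (u v : W) :
    ∀ {a b : W} (w : (Γ ⊔ SimpleGraph.edge u v).Walk a b), w.IsTrail → s(u, v) ∈ w.edges →
    (∃ (p : Γ.Walk a u) (r : Γ.Walk v b), p.length + r.length + 1 = w.length) ∨
    (∃ (p : Γ.Walk a v) (r : Γ.Walk u b), p.length + r.length + 1 = w.length) := by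
  intro a b w
  induction w with
  | nil => intro _ h; simp at h
  | @cons a c b hac w ih =>
    intro ht he
    rw [SimpleGraph.Walk.isTrail_cons] at ht
    by_cases hs : s(a, c) = s(u, v)
    · have hnot : s(u, v) ∉ w.edges := by rw [← hs]; exact ht.2
      have hΓ : ∀ e ∈ w.edges, e ∈ Γ.edgeSet := by
        intro e hew
        have h1 := w.edges_subset_edgeSet hew
        induction e using Sym2.ind with
        | _ y z =>
          rw [SimpleGraph.mem_edgeSet, SimpleGraph.sup_adj] at h1
          rcases h1 with h1 | h1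
          · exact h1
          · exfalso
            rw [SimpleGraph.edge, SimpleGraph.fromEdgeSet_adj, Set.mem_singleton_iff] at h1
            rw [h1.1] at hew
            exact hnot hew
      rcases Sym2.eq_iff.mp hs with ⟨h1, h2⟩ | ⟨h1, h2⟩
      · subst h1; subst h2
        refine Or.inl ⟨SimpleGraph.Walk.nil, w.transfer Γ hΓ, ?_⟩
        simp
      · subst h1; subst h2
        refine Or.inr ⟨SimpleGraph.Walk.nil, w.transfer Γ hΓ, ?_⟩
        simp
    · have hadj : Γ.Adj a c := by
        rw [SimpleGraph.sup_adj] at hac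
        rcases hac with h1 | h1
        · exact h1
        · exfalso
          rw [SimpleGraph.edge, SimpleGraph.fromEdgeSet_adj, Set.mem_singleton_iff] at h1
          exact hs h1.1
      have hew : s(u, v) ∈ w.edges := by
        rw [SimpleGraph.Walk.edges_cons, List.mem_cons] at he
        rcases he with h1 | h1
        · exact absurd h1.symm hs
        · exact h1
      rcases ih ht.1 hew with ⟨p, r, h1⟩ | ⟨p, r, h1⟩
      · refine Or.inl ⟨SimpleGraph.Walk.cons hadj p, r, ?_⟩
        simp only [SimpleGraph.Walk.length_cons]; omega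
      · refine Or.inr ⟨SimpleGraph.Walk.cons hadj p, r, ?_⟩
        simp only [SimpleGraph.Walk.length_cons]; omega

/-- Module D1 (private copy). -/
private theorem D2_addEdge {W : Type} (Γ : SimpleGraph W) (L : ℕ) (h : NoShort Γ L) (u v : W)
    (huv : ∀ w : Γ.Walk u v, L ≤ w.length + 1) : NoShort (Γ ⊔ SimpleGraph.edge u v) L := by
  intro a w hw
  by_cases he : s(u, v) ∈ w.edges
  · rcases D2_split Γ u v w hw.isTrail he with ⟨p, r, h1⟩ | ⟨p, r, h1⟩
    · have := huv (p.reverse.append r.reverse)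
      rw [SimpleGraph.Walk.length_append, SimpleGraph.Walk.length_reverse,
        SimpleGraph.Walk.length_reverse] at this
      omega
    · have := huv (r.append p)
      rw [SimpleGraph.Walk.length_append] at this
      omega
  · have hΓ : ∀ e ∈ w.edges, e ∈ Γ.edgeSet := by
      intro e hew
      have h1 := w.edges_subset_edgeSet hew
      induction e using Sym2.ind with
      | _ y z =>
        rw [SimpleGraph.mem_edgeSet, SimpleGraph.sup_adj] at h1
        rcases h1 with h1 | h1
        · exact h1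
        · exfalso
          rw [SimpleGraph.edge, SimpleGraph.fromEdgeSet_adj, Set.mem_singleton_iff] at h1
          rw [h1.1] at hew
          exact he hew
    have := h a (w.transfer Γ hΓ) (hw.transfer hΓ)
    rw [SimpleGraph.Walk.length_transfer] at this
    exact this

private theorem D2_main {W : Type} (Γ : SimpleGraph W) (L ℓ : ℕ) (h : NoShort Γ L)
    (x : ℕ → W) (hinj : Set.InjOn x (Set.Iic ℓ))
    (hfresh : ∀ i, 0 < i → i < ℓ → ∀ y, ¬ Γ.Adj (x i) y)
    (g : W → ℤ) (hg : Lip Γ g) (hgap : (L : ℤ) ≤ g (x ℓ) - g (x 0) + ℓ) :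
    ∀ k, k ≤ ℓ → NoShort (D2G Γ x k) L := by
  intro k
  induction k with
  | zero => intro _; rw [D2_zero]; exact h
  | succ k ih =>
    intro hk
    rw [D2_succ]
    refine D2_addEdge _ L (ih (by omega)) _ _ ?_
    intro w
    have hne : ∀ i j, i ≤ ℓ → j ≤ ℓ → i ≠ j → x i ≠ x j := by
      intro i j hi hj hij he
      exact hij (hinj (Set.mem_Iic.mpr hi) (Set.mem_Iic.mpr hj) he)
    rcases Nat.lt_or_ge (k + 1) ℓ with hlt | hge
    · exfalso
      refine D2_no_walk (hne k (k + 1) (by omega) (by omega) (by omega)) ?_ w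
      intro y hy
      rcases D2_adj Γ x k hy with h1 | ⟨i, hi, ⟨h1, -⟩ | ⟨h1, -⟩⟩
      · exact hfresh (k + 1) (by omega) hlt y h1
      · exact hne (k + 1) i (by omega) (by omega) (by omega) h1
      · exact hne (k + 1) (i + 1) (by omega) (by omega) (by omega) h1
    · have hkl : k + 1 = ℓ := by omega
      classical
      let g' : W → ℤ := fun y => if hy : ∃ i, 0 < i ∧ i < ℓ ∧ y = x i then
        g (x 0) - (hy.choose : ℤ) else g y
      have hgx : ∀ i, 0 < i → i < ℓ → g' (x i) = g (x 0) - (i : ℤ) := by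
        intro i h0 hi
        have hex : ∃ j, 0 < j ∧ j < ℓ ∧ x i = x j := ⟨i, h0, hi, rfl⟩
        have e1 : g' (x i) = g (x 0) - (hex.choose : ℤ) := dif_pos hex
        have hc := hex.choose_spec
        have hij : hex.choose = i := by
          by_contra hcon
          exact hne i hex.choose (by omega) (by omega) (fun e => hcon e.symm) hc.2.2
        rw [e1, hij]
      have hgn : ∀ y, (¬ ∃ i, 0 < i ∧ i < ℓ ∧ y = x i) → g' y = g y := by
        intro y hy
        exact dif_neg hy
      have hg0 : g' (x 0) = g (x 0) := by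
        apply hgn
        rintro ⟨i, h0, hi, he⟩
        exact hne 0 i (by omega) (by omega) (by omega) he
      have hgl : g' (x ℓ) = g (x ℓ) := by
        apply hgn
        rintro ⟨i, h0, hi, he⟩
        exact hne ℓ i (by omega) (by omega) (by omega) he
      have hgk : g' (x k) = g (x 0) - (k : ℤ) := by
        rcases Nat.eq_zero_or_pos k with h0 | h0
        · subst h0; rw [hg0]; simp
        · exact hgx k h0 (by omega)
      have hval : ∀ i, i < ℓ → g' (x i) = g (x 0) - (i : ℤ) := by
        intro i hi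
        rcases Nat.eq_zero_or_pos i with h0 | h0
        · subst h0; rw [hg0]; simp
        · exact hgx i h0 hi
      have hlip : Lip (D2G Γ x k) g' := by
        intro a b hab
        rcases D2_adj Γ x k hab with h1 | ⟨i, hi, ⟨h1, h2⟩ | ⟨h1, h2⟩⟩
        · have ha : ¬ ∃ i, 0 < i ∧ i < ℓ ∧ a = x i := by
            rintro ⟨i, h0, hi, rfl⟩
            exact hfresh i h0 hi b h1
          have hb : ¬ ∃ i, 0 < i ∧ i < ℓ ∧ b = x i := by
            rintro ⟨i, h0, hi, rfl⟩
            exact hfresh i h0 hi a h1.symm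
          rw [hgn a ha, hgn b hb]
          exact hg a b h1
        · rw [h1, h2, hval i (by omega), hval (i + 1) (by omega)]
          push_cast
          rw [show g (x 0) - (i : ℤ) - (g (x 0) - ((i : ℤ) + 1)) = 1 by ring]
          simp
        · rw [h1, h2, hval i (by omega), hval (i + 1) (by omega)]
          push_cast
          rw [show g (x 0) - ((i : ℤ) + 1) - (g (x 0) - (i : ℤ)) = -1 by ring]
          simp
      have hw := D2_lip_walk hlip w
      have hgl2 : g' (x (k + 1)) = g (x ℓ) := by rw [hkl]; exact hgl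
      rw [hgk, hgl2] at hw
      have hw' := (abs_le.mp hw).1
      have : (L : ℤ) ≤ (w.length : ℤ) + 1 := by
        have hk' : (k : ℤ) + 1 = (ℓ : ℤ) := by exact_mod_cast hkl
        linarith
      exact_mod_cast this

/-- Module D2. Adding a path of length `ℓ` through fresh vertices. -/
theorem noShort_addPath {W : Type} (Γ : SimpleGraph W) (L ℓ : ℕ) (h : NoShort Γ L)
    (x : ℕ → W) (hℓ : 1 ≤ ℓ) (hinj : Set.InjOn x (Set.Iic ℓ))
    (hfresh : ∀ i, 0 < i → i < ℓ → ∀ y, ¬ Γ.Adj (x i) y)
    (g : W → ℤ) (hg : Lip Γ g) (hgap : (L : ℤ) ≤ g (x ℓ) - g (x 0) + ℓ) :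
    NoShort (Γ ⊔ SimpleGraph.fromEdgeSet {e | ∃ i < ℓ, e = s(x i, x (i + 1))}) L :=
  have _ := hℓ
  D2_main Γ L ℓ h x hinj hfresh g hg hgap ℓ le_rfl

end Pool.Agent.C2bb60Neg
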