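import Pool.Agent.Work.MP_c2bb60_gt.Neg.ModD2
set_option autoImplicit false
open Set Filter Topology
namespace Pool.Agent.C2bb60Neg

private theorem E_lev_mono {y z : ℕ} (h : y ≤ z) : lev y ≤ lev z := by
  unfold lev
  exact Nat.log_mono_right (Nat.succ_le_succ (Nat.div_le_div_right h))

private theorem E_q_mono {a b : ℕ} (h : a ≤ b) : q a ≤ q b := by
  unfold q
  exact Nat.add_le_add_right (Nat.div_le_div_right h) 3

private theorem E_q_pos (a : ℕ) : 0 < q a := by
  unfold q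
  omega

private theorem E_noShort_mono {W : Type} {Γ Γ' : SimpleGraph W} (hle : Γ ≤ Γ') {L : ℕ}
    (h : NoShort Γ' L) : NoShort Γ L := by
  intro a w hw
  have := h a (w.mapLe hle) (hw.mapLe hle)
  simpa using this

private theorem E_base {P Q : ℕ → ℕ} (m z₀ L : ℕ) (hz : z₀ ≤ NN) : NoShort (SubG P Q m z₀) L := by
  have hno : ∀ x y, ¬ SubRel P Q m z₀ x y := by
    intro x y hxy
    have h1 := hxy.1
    have h2 := hxy.2.1
    omega
  intro a w hw
  exfalso
  cases w with
  | nil => exact hw.not_nil SimpleGraph.Walk.Nil.nil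
  | cons hadj p =>
    rw [SubG, SimpleGraph.fromRel_adj] at hadj
    rcases hadj.2 with h | h
    · exact hno _ _ h
    · exact hno _ _ h

/-- The points of the new thread: `(P z, 0)`, then `(z, a - i)`, then `(Q z, 0)`. -/
private def E_x (P Q : ℕ → ℕ) (a z : ℕ) (i : ℕ) : VV :=
  if i = 0 then (P z, 0) else if i < 2 * a then (z, (a : ℤ) - i) else (Q z, 0)

private theorem E_x_zero (P Q : ℕ → ℕ) (a z : ℕ) : E_x P Q a z 0 = (P z, 0) := by
  simp [E_x]

private theorem E_x_mid (P Q : ℕ → ℕ) (a z : ℕ) {i : ℕ} (h0 : 0 < i) (h1 : i < 2 * a) :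
    E_x P Q a z i = (z, (a : ℤ) - i) := by
  unfold E_x
  rw [if_neg (by omega), if_pos h1]

private theorem E_x_last (P Q : ℕ → ℕ) (a z : ℕ) (ha : 0 < a) : E_x P Q a z (2 * a) = (Q z, 0) := by
  unfold E_x
  rw [if_neg (by omega), if_neg (by omega)]

/-- Extension of a function on thread vertices along the threads. -/
private def E_g (P Q : ℕ → ℕ) (m : ℕ) (f : ℕ → ℤ) (x : VV) : ℤ :=
  if x.2 = 0 then f x.1
  else if 0 < x.2 then min (f x.1 + x.2) (f (P x.1) + ((aa m x.1 : ℤ) - x.2))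
  else min (f x.1 - x.2) (f (Q x.1) + ((aa m x.1 : ℤ) + x.2))

private theorem E_g_rel {P Q : ℕ → ℕ} {m z : ℕ} {f : ℕ → ℤ}
    (hf : ∀ y, NN ≤ y → y < z → |f (P y) - f y| ≤ (aa m y : ℤ) ∧ |f (Q y) - f y| ≤ (aa m y : ℤ))
    (hA : ∀ y, NN ≤ y → y < z → 0 < aa m y)
    {x y : VV} (hxy : SubRel P Q m z x y) : |E_g P Q m f x - E_g P Q m f y| ≤ 1 := by
  obtain ⟨x1, x2⟩ := x
  obtain ⟨y1, y2⟩ := y
  obtain ⟨h1, h2, h3⟩ := hxy
  simp only at h1 h2 h3
  obtain ⟨hP, hQ⟩ := hf x1 h1 h2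
  have hA1 := hA x1 h1 h2
  rw [abs_le] at hP hQ
  rcases h3 with ⟨e1, e2, e3, e4⟩ | ⟨e1, e2⟩ | ⟨e1, e2⟩
  · subst e1
    subst e2
    unfold E_g
    simp only
    split_ifs <;> rw [abs_le] <;> omega
  · obtain ⟨rfl, rfl⟩ := Prod.mk.inj e2
    unfold E_g
    simp only
    split_ifs <;> rw [abs_le] <;> omega
  · obtain ⟨rfl, rfl⟩ := Prod.mk.inj e2
    unfold E_g
    simp only
    split_ifs <;> rw [abs_le] <;> omega

private theorem E_g_lip {P Q : ℕ → ℕ} {m z : ℕ} {f : ℕ → ℤ}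
    (hf : ∀ y, NN ≤ y → y < z → |f (P y) - f y| ≤ (aa m y : ℤ) ∧ |f (Q y) - f y| ≤ (aa m y : ℤ))
    (hA : ∀ y, NN ≤ y → y < z → 0 < aa m y) : Lip (SubG P Q m z) (E_g P Q m f) := by
  intro x y hadj
  rw [SubG, SimpleGraph.fromRel_adj] at hadj
  rcases hadj.2 with h | h
  · exact E_g_rel hf hA h
  · rw [abs_sub_comm]
    exact E_g_rel hf hA h

private theorem E_le {P Q : ℕ → ℕ} {m z : ℕ} (ha : 0 < aa m z) :
    SubG P Q m (z + 1) ≤ SubG P Q m z ⊔
      SimpleGraph.fromEdgeSet {e | ∃ i < 2 * aa m z,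
        e = s(E_x P Q (aa m z) z i, E_x P Q (aa m z) z (i + 1))} := by
  set a := aa m z with hadef
  have key : ∀ x y : VV, x ≠ y → SubRel P Q m (z + 1) x y →
      (SubG P Q m z ⊔ SimpleGraph.fromEdgeSet {e | ∃ i < 2 * a,
        e = s(E_x P Q a z i, E_x P Q a z (i + 1))}).Adj x y := by
    rintro ⟨x1, x2⟩ ⟨y1, y2⟩ hne hrel
    rw [SimpleGraph.sup_adj]
    rcases Nat.lt_or_ge x1 z with hlt | hge
    · left
      rw [SubG, SimpleGraph.fromRel_adj]
      exact ⟨hne, Or.inl ⟨hrel.1, hlt, hrel.2.2⟩⟩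
    · right
      obtain ⟨h1, h2, h3⟩ := hrel
      simp only at h1 h2 h3
      have hx : x1 = z := by omega
      subst hx
      rw [← hadef] at h3
      rw [SimpleGraph.fromEdgeSet_adj]
      refine ⟨?_, hne⟩
      rcases h3 with ⟨e1, e2, e3, e4⟩ | ⟨e1, e2⟩ | ⟨e1, e2⟩
      · subst e1
        subst e2
        obtain ⟨i, hi⟩ : ∃ i : ℕ, (i : ℤ) = (a : ℤ) - x2 - 1 := ⟨((a : ℤ) - x2 - 1).toNat, by omega⟩
        refine ⟨i, by omega, ?_⟩
        rw [E_x_mid P Q a _ (i := i) (by omega) (by omega),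
          E_x_mid P Q a _ (i := i + 1) (by omega) (by omega), Sym2.eq_swap]
        have t1 : (a : ℤ) - (i : ℤ) = x2 + 1 := by omega
        have t2 : (a : ℤ) - ((i + 1 : ℕ) : ℤ) = x2 := by push_cast; omega
        rw [t1, t2]
      · refine ⟨0, by omega, ?_⟩
        rw [E_x_zero, E_x_mid P Q a _ (i := 0 + 1) (by omega) (by omega), Sym2.eq_swap, e2]
        have t2 : (a : ℤ) - ((0 + 1 : ℕ) : ℤ) = x2 := by push_cast; omega
        rw [t2]
      · refine ⟨2 * a - 1, by omega, ?_⟩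
        have t3 : 2 * a - 1 + 1 = 2 * a := by omega
        rw [t3, E_x_last P Q a _ ha, E_x_mid P Q a _ (i := 2 * a - 1) (by omega) (by omega), e2]
        have t2 : (a : ℤ) - ((2 * a - 1 : ℕ) : ℤ) = x2 := by omega
        rw [t2]
  intro x y hadj
  rw [SubG, SimpleGraph.fromRel_adj] at hadj
  rcases hadj.2 with h | h
  · exact key x y hadj.1 h
  · exact (key y x hadj.1.symm h).symm

private theorem E_inj {P Q : ℕ → ℕ} {a z : ℕ} (ha : 0 < a) (h1 : P z ≠ z) (h2 : Q z ≠ z)
    (h3 : P z ≠ Q z) : Set.InjOn (E_x P Q a z) (Set.Iic (2 * a)) := by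
  intro i hi j hj hij
  simp only [Set.mem_Iic] at hi hj
  unfold E_x at hij
  split_ifs at hij with c1 c2 c3 c4 c5 c6 c7 c8
  all_goals first
    | omega
    | (have t1 := congrArg Prod.fst hij
       have t2 := congrArg Prod.snd hij
       simp only at t1 t2
       omega)

/-- Module E. The subdivided graph has no cycle shorter than `2 m`. -/
theorem subG_noShort {P Q : ℕ → ℕ} (h : Thread P Q) (m : ℕ) (hm : 0 < m) (z₀ : ℕ)
    (hdiv : ∀ k < lev z₀, q k ∣ m) : NoShort (SubG P Q m z₀) (2 * m) := by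
  induction z₀ with
  | zero => exact E_base m 0 _ (Nat.zero_le _)
  | succ z ih =>
    rcases Nat.lt_or_ge z NN with hz | hz
    · exact E_base m (z + 1) _ (by omega)
    have hlev : lev z ≤ lev (z + 1) := E_lev_mono (Nat.le_succ z)
    have ih' := ih (fun k hk => hdiv k (lt_of_lt_of_le hk hlev))
    have hlP := h.levP z hz
    have hlQ := h.levQ z hz
    have hlevz : 1 ≤ lev z := by omega
    have hdvd : q (lev z - 1) ∣ m := hdiv _ (by omega)
    have haq : aa m z * q (lev z - 1) = m := Nat.div_mul_cancel hdvd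
    have ha : 0 < aa m z := by
      rcases Nat.eq_zero_or_pos (aa m z) with h0 | h0
      · rw [h0] at haq; omega
      · exact h0
    have hPz : P z ≠ z := by
      intro h'; rw [h'] at hlP; omega
    have hQz : Q z ≠ z := by
      intro h'; rw [h'] at hlQ; omega
    obtain ⟨φ, hφ1, hφ2, hφ3⟩ := h.far z hz
    have hqpos : 0 < q (lev (P z)) := E_q_pos _
    have hPQ : P z ≠ Q z := by
      intro h'; rw [← h', hφ2] at hφ3; omega
    have haale : ∀ y, y < z → aa m z ≤ aa m y := by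
      intro y hy
      unfold aa
      refine Nat.div_le_div_left (E_q_mono ?_) (E_q_pos _)
      have := E_lev_mono (le_of_lt hy)
      omega
    refine E_noShort_mono (E_le ha) ?_
    refine noShort_addPath (SubG P Q m z) (2 * m) (2 * aa m z) ih' (E_x P Q (aa m z) z) (by omega)
      (E_inj ha hPz hQz hPQ) ?_ (E_g P Q m (fun y => (aa m z : ℤ) * φ y)) ?_ ?_
    · intro i hi1 hi2 y hadj
      rw [E_x_mid P Q _ _ hi1 hi2, SubG, SimpleGraph.fromRel_adj] at hadj
      obtain ⟨y1, y2⟩ := y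
      rcases hadj.2 with hr | hr
      · exact absurd hr.2.1 (lt_irrefl _)
      · obtain ⟨r1, r2, r3⟩ := hr
        simp only at r1 r2 r3
        have hlevy : lev y1 ≤ lev z := E_lev_mono (le_of_lt r2)
        rcases r3 with ⟨e1, -⟩ | ⟨-, e2⟩ | ⟨-, e2⟩
        · omega
        · have t1 := (Prod.mk.inj e2).1
          have t2 := h.levP y1 r1
          rw [← t1] at t2
          omega
        · have t1 := (Prod.mk.inj e2).1
          have t2 := h.levQ y1 r1
          rw [← t1] at t2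
          omega
    · apply E_g_lip
      · intro y hy1 hy2
        obtain ⟨k1, k2⟩ := hφ1 y hy1 hy2
        have hle : (aa m z : ℤ) ≤ (aa m y : ℤ) := by exact_mod_cast haale y hy2
        have hnn : (0 : ℤ) ≤ (aa m z : ℤ) := by positivity
        constructor
        · rw [← mul_sub, abs_mul, abs_of_nonneg hnn]
          calc (aa m z : ℤ) * |φ (P y) - φ y| ≤ (aa m z : ℤ) * 1 :=
                mul_le_mul_of_nonneg_left k1 hnn
            _ ≤ (aa m y : ℤ) := by rw [mul_one]; exact hle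
        · rw [← mul_sub, abs_mul, abs_of_nonneg hnn]
          calc (aa m z : ℤ) * |φ (Q y) - φ y| ≤ (aa m z : ℤ) * 1 :=
                mul_le_mul_of_nonneg_left k2 hnn
            _ ≤ (aa m y : ℤ) := by rw [mul_one]; exact hle
      · intro y hy1 hy2
        exact lt_of_lt_of_le ha (haale y hy2)
    · rw [E_x_zero, E_x_last P Q _ _ ha]
      have hlP' : lev (P z) = lev z - 1 := by omega
      have e1 : E_g P Q m (fun y => (aa m z : ℤ) * φ y) (Q z, 0) = (aa m z : ℤ) * φ (Q z) := by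
        simp [E_g]
      have e2 : E_g P Q m (fun y => (aa m z : ℤ) * φ y) (P z, 0) = (aa m z : ℤ) * φ (P z) := by
        simp [E_g]
      rw [e1, e2, hφ2, hφ3, hlP']
      have haq' : (aa m z : ℤ) * (q (lev z - 1) : ℤ) = (m : ℤ) := by exact_mod_cast haq
      have hnn : (0 : ℤ) ≤ (aa m z : ℤ) := by positivity
      push_cast
      nlinarith

end Pool.Agent.C2bb60Neg
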