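import Pool.Agent.Work.MP_c2bb60_gt.Neg.Defs
set_option autoImplicit false
open Set Filter Topology
namespace Pool.Agent.C2bb60Neg

/-- At a vertex `e` at distance `δ < m` from `c`, of two distinct neighbours at least one is at
distance `δ + 1` from `c`. -/
def T12 {W : Type} (Γ : SimpleGraph W) (m : ℕ) : Prop :=
  ∀ (c e u u' : W) (δ : ℕ), Γ.edist c e = (δ : ℕ∞) → δ < m → Γ.Adj e u → Γ.Adj e u' → u ≠ u' →
    Γ.edist c u = ((δ + 1 : ℕ) : ℕ∞) ∨ Γ.edist c u' = ((δ + 1 : ℕ) : ℕ∞)

/-- two paths with the same ends and small total length are equal -/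
private theorem F_unique {W : Type} {Γ : SimpleGraph W} {m : ℕ} (h : NoShort Γ (2 * m))
    {u v : W} {p r : Γ.Walk u v} (hp : p.IsPath) (hr : r.IsPath)
    (hlen : p.length + r.length < 2 * m) : p = r := by
  by_contra hne
  obtain ⟨w, -, -, c, hc, hl⟩ := hp.exists_isCycle_length_le_add_of_ne hr hne
  have := h w c hc
  omega

/-- a shortest walk is a path -/
private theorem F_isPath {W : Type} {Γ : SimpleGraph W} {u v : W} {n : ℕ}
    (he : Γ.edist u v = (n : ℕ∞)) (p : Γ.Walk u v) (hp : p.length = n) : p.IsPath := by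
  classical
  have h1 : p.bypass = p := by
    apply SimpleGraph.Walk.bypass_eq_self_of_length_le_length_bypass
    have h2 : (n : ℕ∞) ≤ (p.bypass.length : ℕ∞) := by
      rw [← he]
      exact SimpleGraph.edist_le _
    rw [hp]
    exact_mod_cast h2
  rw [← h1]
  exact SimpleGraph.Walk.bypass_isPath _

/-- if the neighbour `u` of `e` is not farther than `e`, then it is nearer, and a shortest path
to `e` passes through `u`. -/
private theorem F_step {W : Type} {Γ : SimpleGraph W} {m : ℕ} (h : NoShort Γ (2 * m))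
    {c e u : W} {δ : ℕ} (he : Γ.edist c e = (δ : ℕ∞)) (hδ : δ < m) (hu : Γ.Adj e u)
    (hne : Γ.edist c u ≠ ((δ + 1 : ℕ) : ℕ∞)) :
    ∃ P : Γ.Walk c e, P.IsPath ∧ P.length = δ ∧ ∃ l : List W, P.support = l ++ [u] ++ [e] := by
  obtain ⟨r, hr⟩ := SimpleGraph.exists_walk_of_edist_eq_coe he
  have hrp := F_isPath he r hr
  -- the distance of `u`
  have h1 : Γ.edist c u ≤ ((δ + 1 : ℕ) : ℕ∞) := by
    have := SimpleGraph.edist_le (r.concat hu)
    rw [SimpleGraph.Walk.length_concat, hr] at this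
    exact this
  have hfin : Γ.edist c u ≠ ⊤ := by
    intro htop
    rw [htop, top_le_iff] at h1
    exact ENat.natCast_ne_top _ h1
  obtain ⟨a, ha⟩ : ∃ a : ℕ, Γ.edist c u = (a : ℕ∞) :=
    ⟨(Γ.edist c u).toNat, (ENat.natCast_toNat hfin).symm⟩
  rw [ha] at h1 hne
  have h2 : a ≤ δ + 1 := by exact_mod_cast h1
  have h3 : a ≠ δ + 1 := fun hh => hne (by rw [hh])
  obtain ⟨p, hp⟩ := SimpleGraph.exists_walk_of_edist_eq_coe ha
  have hpp := F_isPath ha p hp
  have hnot : e ∉ p.support := by
    classical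
    intro hmem
    have h4 : (p.takeUntil e hmem).length + (p.dropUntil e hmem).length = a := by
      rw [← SimpleGraph.Walk.length_append, SimpleGraph.Walk.take_spec, hp]
    have h5 : δ ≤ (p.takeUntil e hmem).length := by
      have := SimpleGraph.edist_le (p.takeUntil e hmem)
      rw [he] at this
      exact_mod_cast this
    have h6 : (p.dropUntil e hmem).length ≠ 0 := by
      intro h0
      exact hu.ne (SimpleGraph.Walk.eq_of_length_eq_zero h0)
    omega
  have hPp : (p.concat hu.symm).IsPath := hpp.concat hnot hu.symm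
  have hPl : (p.concat hu.symm).length = a + 1 := by
    rw [SimpleGraph.Walk.length_concat, hp]
  have heq : p.concat hu.symm = r := by
    apply F_unique h hPp hrp
    omega
  have hδa : a + 1 = δ := by rw [← hPl, heq, hr]
  refine ⟨p.concat hu.symm, hPp, by omega, p.support.dropLast, ?_⟩
  rw [SimpleGraph.Walk.support_concat, SimpleGraph.Walk.dropLast_support_concat]

/-- Module F1. -/
theorem t12_of_noShort {W : Type} (Γ : SimpleGraph W) (m : ℕ) (h : NoShort Γ (2 * m)) :
    T12 Γ m := by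
  intro c e u u' δ he hδ hu hu' hne
  by_contra hcon
  push Not at hcon
  obtain ⟨P, hP, hPl, l, hl⟩ := F_step h he hδ hu hcon.1
  obtain ⟨P', hP', hPl', l', hl'⟩ := F_step h he hδ hu' hcon.2
  have heq : P = P' := F_unique h hP hP' (by omega)
  rw [heq, hl'] at hl
  have h1 := List.append_inj_left' hl rfl
  have h2 := List.append_inj_right' h1 rfl
  exact hne (List.singleton_inj.mp h2).symm

/-- Module F2. Injective edge paths of length `≤ m` are geodesic. -/
theorem edist_path {W : Type} (Γ : SimpleGraph W) (m : ℕ) (h : NoShort Γ (2 * m))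
    (x : ℕ → W) (ℓ : ℕ) (hℓ : ℓ ≤ m) (hinj : Set.InjOn x (Set.Iic ℓ))
    (hadj : ∀ i < ℓ, Γ.Adj (x i) (x (i + 1))) : Γ.edist (x 0) (x ℓ) = (ℓ : ℕ∞) := by
  have hwalk : ∀ n, n ≤ ℓ → ∃ p : Γ.Walk (x 0) (x n), p.support = (List.range (n + 1)).map x := by
    intro n
    induction n with
    | zero => intro _; exact ⟨SimpleGraph.Walk.nil, by simp⟩
    | succ n ih =>
      intro hn
      obtain ⟨p, hp⟩ := ih (by omega)
      refine ⟨p.concat (hadj n (by omega)), ?_⟩
      rw [SimpleGraph.Walk.support_concat, hp, List.range_succ (n := n + 1), List.map_append]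
      rfl
  obtain ⟨p, hp⟩ := hwalk ℓ le_rfl
  have hlen : p.length = ℓ := by
    have h1 := SimpleGraph.Walk.length_support p
    rw [hp, List.length_map, List.length_range] at h1
    omega
  have hpath : p.IsPath := by
    rw [SimpleGraph.Walk.isPath_def, hp]
    refine List.Nodup.map_on ?_ List.nodup_range
    intro i hi j hj hij
    rw [List.mem_range] at hi hj
    exact hinj (by simpa using Nat.lt_succ_iff.mp hi) (by simpa using Nat.lt_succ_iff.mp hj) hij
  have h1 : Γ.edist (x 0) (x ℓ) ≤ (ℓ : ℕ∞) := by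
    have := SimpleGraph.edist_le p
    rwa [hlen] at this
  have hfin : Γ.edist (x 0) (x ℓ) ≠ ⊤ := by
    intro htop
    rw [htop, top_le_iff] at h1
    exact ENat.natCast_ne_top _ h1
  obtain ⟨a, ha⟩ : ∃ a : ℕ, Γ.edist (x 0) (x ℓ) = (a : ℕ∞) :=
    ⟨(Γ.edist (x 0) (x ℓ)).toNat, (ENat.natCast_toNat hfin).symm⟩
  obtain ⟨r, hr⟩ := SimpleGraph.exists_walk_of_edist_eq_coe ha
  have hrp := F_isPath ha r hr
  rw [ha] at h1 ⊢
  have h2 : a ≤ ℓ := by exact_mod_cast h1
  rcases Nat.lt_or_ge a ℓ with h3 | h3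
  · exfalso
    have heq : p = r := F_unique h hpath hrp (by omega)
    rw [heq] at hlen
    omega
  · have : a = ℓ := le_antisymm h2 h3
    rw [this]

end Pool.Agent.C2bb60Neg
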